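import Mathlib

/-!
# A representation of contractions

For a contraction `N` and a unit complex number `ζ` which is not an eigenvalue of `N` there are a
contraction `Γ` and unit numbers `z k` with `N = ζ (1 - Γ* Γ) + Γ* diag(z) Γ`.
-/

set_option autoImplicit false
open Matrix
open scoped ComplexOrder

namespace Pool.Agent.H836_SV

variable {ι : Type*} [Fintype ι] [DecidableEq ι]

theorem sqrt_exists {P : Matrix ι ι ℂ} (hP : P.PosSemidef) :
    ∃ B : Matrix ι ι ℂ, Bᴴ = B ∧ P = B * B := by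
  open scoped MatrixOrder Matrix.Norms.L2Operator in
  obtain ⟨B, hB, h⟩ := CStarAlgebra.nonneg_iff_exists_isSelfAdjoint_and_eq_mul_self.1
    (Matrix.nonneg_iff_posSemidef.2 hP)
  exact ⟨B, hB, h⟩

theorem spectral {H : Matrix ι ι ℂ} (hH : H.IsHermitian) :
    ∃ V : Matrix ι ι ℂ, Vᴴ * V = 1 ∧ V * Vᴴ = 1 ∧
      Vᴴ * H * V = Matrix.diagonal (fun i => ((hH.eigenvalues i : ℝ) : ℂ)) := by
  refine ⟨hH.eigenvectorUnitary, ?_, ?_, ?_⟩
  · exact Unitary.coe_star_mul_self hH.eigenvectorUnitary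
  · exact Unitary.coe_mul_star_self hH.eigenvectorUnitary
  · have h := hH.conjStarAlgAut_star_eigenvectorUnitary
    rw [Unitary.conjStarAlgAut_star_apply] at h
    exact h

theorem rep {N : Matrix ι ι ℂ} (hN : (1 - Nᴴ * N).PosSemidef) {ζ : ℂ} (hζ : ‖ζ‖ = 1)
    (hu : IsUnit (ζ • (1 : Matrix ι ι ℂ) - N)) :
    ∃ (Γ : Matrix ι ι ℂ) (z : ι → ℂ), (∀ k, ‖z k‖ = 1) ∧ (1 - Γᴴ * Γ).PosSemidef ∧
      N = ζ • (1 - Γᴴ * Γ) + Γᴴ * Matrix.diagonal z * Γ := by
  obtain ⟨W, hW1, hW2⟩ : ∃ W : Matrix ι ι ℂ, (ζ • (1 : Matrix ι ι ℂ) - N) * W = 1 ∧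
      W * (ζ • (1 : Matrix ι ι ℂ) - N) = 1 := by
    obtain ⟨u, hu⟩ := hu
    exact ⟨(u⁻¹ : (Matrix ι ι ℂ)ˣ), by rw [← hu]; exact u.mul_inv, by rw [← hu]; exact u.inv_mul⟩
  have hζ2 : (starRingEnd ℂ) ζ * ζ = 1 := by
    rw [Complex.conj_mul', hζ]; norm_num
  set K := ζ • (1 : Matrix ι ι ℂ) - N with hK
  set Y : Matrix ι ι ℂ := (2 * ζ) • W with hY
  set P : Matrix ι ι ℂ := (1 / 2 : ℂ) • (Y + Yᴴ) with hP
  set H : Matrix ι ι ℂ := (1 / (2 * Complex.I) : ℂ) • (Y - Yᴴ) with hH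
  have hYPH : Y = P + Complex.I • H := by
    rw [hP, hH, smul_smul]
    have : Complex.I * (1 / (2 * Complex.I)) = 1 / 2 := by
      field_simp
    rw [this, ← smul_add]
    have : Y + Yᴴ + (Y - Yᴴ) = (2 : ℂ) • Y := by
      rw [two_smul]; abel
    rw [this, smul_smul]
    norm_num
  have hHH : H.IsHermitian := by
    rw [Matrix.IsHermitian, hH, Matrix.conjTranspose_smul, Matrix.conjTranspose_sub,
      Matrix.conjTranspose_conjTranspose]
    have : star (1 / (2 * Complex.I)) = -(1 / (2 * Complex.I)) := by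
      rw [star_div₀, star_mul']
      simp
    rw [this, neg_smul, ← smul_neg, neg_sub]
  have hP1 : P - 1 = Wᴴ * (1 - Nᴴ * N) * W := by
    have e0 : Wᴴ * (Kᴴ * K) * W = 1 := by
      have : Wᴴ * Kᴴ = 1 := by
        rw [← Matrix.conjTranspose_mul, hW1, Matrix.conjTranspose_one]
      calc Wᴴ * (Kᴴ * K) * W = (Wᴴ * Kᴴ) * (K * W) := by simp only [Matrix.mul_assoc]
        _ = 1 := by rw [this, hW1, Matrix.one_mul]
    have e1 : P = Wᴴ * ((1 / 2 : ℂ) • (Kᴴ * ((2 * ζ) • (1 : Matrix ι ι ℂ)) +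
        (starRingEnd ℂ (2 * ζ)) • K)) * W := by
      have a1 : Wᴴ * (Kᴴ * ((2 * ζ) • (1 : Matrix ι ι ℂ))) * W = Y := by
        have : Wᴴ * Kᴴ = 1 := by
          rw [← Matrix.conjTranspose_mul, hW1, Matrix.conjTranspose_one]
        rw [Matrix.mul_smul, Matrix.mul_one, Matrix.mul_smul, this, Matrix.smul_mul,
          Matrix.one_mul]
      have a2 : Wᴴ * ((starRingEnd ℂ (2 * ζ)) • K) * W = Yᴴ := by
        rw [Matrix.mul_smul, Matrix.smul_mul, Matrix.mul_assoc, hW1, Matrix.mul_one, hY,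
          Matrix.conjTranspose_smul]
        rfl
      rw [Matrix.mul_smul, Matrix.smul_mul, Matrix.mul_add, Matrix.add_mul, a1, a2]
    have e2 : P - 1 = Wᴴ * ((1 / 2 : ℂ) • (Kᴴ * ((2 * ζ) • (1 : Matrix ι ι ℂ)) +
        (starRingEnd ℂ (2 * ζ)) • K) - Kᴴ * K) * W := by
      rw [Matrix.mul_sub, Matrix.sub_mul, e0, ← e1]
    rw [e2]
    congr 2
    have hKH : Kᴴ = (starRingEnd ℂ ζ) • (1 : Matrix ι ι ℂ) - Nᴴ := by
      rw [hK, Matrix.conjTranspose_sub, Matrix.conjTranspose_smul, Matrix.conjTranspose_one]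
      rfl
    rw [hKH, hK]
    simp only [Matrix.sub_mul, Matrix.mul_sub, Matrix.smul_mul, Matrix.mul_smul, Matrix.mul_one,
      Matrix.one_mul, smul_sub, smul_add, smul_smul, map_mul, Complex.conj_ofNat]
    have b1 : (1 / 2 : ℂ) * (2 * ζ * (starRingEnd ℂ) ζ) = 1 := by
      linear_combination hζ2
    have b2 : (1 / 2 : ℂ) * (2 * (starRingEnd ℂ) ζ * ζ) = 1 := by
      linear_combination hζ2
    have b3 : (starRingEnd ℂ) ζ * ζ = 1 := hζ2
    have b4 : (1 / 2 : ℂ) * (2 * ζ) = ζ := by ring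
    have b5 : (1 / 2 : ℂ) * (2 * (starRingEnd ℂ) ζ) = (starRingEnd ℂ) ζ := by ring
    have b6 : ζ * (starRingEnd ℂ) ζ = 1 := by linear_combination hζ2
    simp only [b1, b2, b4, b5, b6, one_smul]
    abel
  have hP1' : (P - 1).PosSemidef := by
    rw [hP1]
    exact hN.conjTranspose_mul_mul_same W
  have hPD : P.PosDef := by
    have := Matrix.PosDef.posSemidef_add hP1' Matrix.PosDef.one
    simpa using this
  obtain ⟨B, hBH, hPB⟩ := sqrt_exists hPD.posSemidef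
  have hBu : IsUnit B := by
    have h1 : IsUnit (B * B) := by rw [← hPB]; exact hPD.isUnit
    exact isUnit_of_mul_isUnit_left h1
  obtain ⟨C, hC1, hC2⟩ : ∃ C : Matrix ι ι ℂ, B * C = 1 ∧ C * B = 1 := by
    obtain ⟨u, hu⟩ := hBu
    exact ⟨(u⁻¹ : (Matrix ι ι ℂ)ˣ), by rw [← hu]; exact u.mul_inv, by rw [← hu]; exact u.inv_mul⟩
  have hCH : Cᴴ = C := by
    have h1 : B * Cᴴ = 1 := by
      have := congrArg Matrix.conjTranspose hC2
      rwa [Matrix.conjTranspose_mul, hBH, Matrix.conjTranspose_one] at this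
    calc Cᴴ = (C * B) * Cᴴ := by rw [hC2, Matrix.one_mul]
      _ = C * (B * Cᴴ) := by rw [Matrix.mul_assoc]
      _ = C := by rw [h1, Matrix.mul_one]
  have hH1 : (C * H * C).IsHermitian := by
    rw [Matrix.IsHermitian, Matrix.conjTranspose_mul, Matrix.conjTranspose_mul, hCH, hHH.eq,
      Matrix.mul_assoc]
  obtain ⟨V, hV1, hV2, hV3⟩ := spectral hH1
  set t := hH1.eigenvalues with ht
  set X : Matrix ι ι ℂ := C * V with hX
  have hXH : Xᴴ = Vᴴ * C := by rw [hX, Matrix.conjTranspose_mul, hCH]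
  have hXP : Xᴴ * P * X = 1 := by
    rw [hXH, hX, hPB]
    calc Vᴴ * C * (B * B) * (C * V) = Vᴴ * ((C * B) * (B * C)) * V := by
          simp only [Matrix.mul_assoc]
      _ = 1 := by rw [hC1, hC2, Matrix.one_mul, Matrix.mul_one, hV1]
  have hXHX : Xᴴ * H * X = Matrix.diagonal (fun i => ((t i : ℝ) : ℂ)) := by
    rw [hXH, hX, ← hV3]
    simp only [Matrix.mul_assoc]
  have hXY : Xᴴ * Y * X = Matrix.diagonal (fun i => 1 + Complex.I * ((t i : ℝ) : ℂ)) := by
    rw [hYPH, Matrix.mul_add, Matrix.add_mul, hXP, Matrix.mul_smul, Matrix.smul_mul, hXHX,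
      ← Matrix.diagonal_one, ← Matrix.diagonal_smul, Matrix.diagonal_add]
    rfl
  have hd : ∀ i, (1 + Complex.I * ((t i : ℝ) : ℂ)) ≠ 0 := by
    intro i h
    have := congrArg Complex.re h
    simp at this
  set Dv : Matrix ι ι ℂ := Matrix.diagonal (fun i => (1 + Complex.I * ((t i : ℝ) : ℂ))⁻¹)
    with hDv
  -- `X Dv Xᴴ` is the inverse of `Y`
  have hXX : X * Xᴴ = C * C := by
    rw [hXH, hX]
    calc C * V * (Vᴴ * C) = C * (V * Vᴴ) * C := by simp only [Matrix.mul_assoc]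
      _ = C * C := by rw [hV2, Matrix.mul_one]
  have hBB : (B * B) * (C * C) = 1 := by
    calc (B * B) * (C * C) = B * (B * C) * C := by simp only [Matrix.mul_assoc]
      _ = 1 := by rw [hC1, Matrix.mul_one, hC1]
  -- inverse of X
  set Xi : Matrix ι ι ℂ := Vᴴ * B with hXi
  have hXiX : Xi * X = 1 := by
    rw [hXi, hX]
    calc Vᴴ * B * (C * V) = Vᴴ * (B * C) * V := by simp only [Matrix.mul_assoc]
      _ = 1 := by rw [hC1, Matrix.mul_one, hV1]
  have hXXi : X * Xi = 1 := by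
    rw [hXi, hX]
    calc C * V * (Vᴴ * B) = C * (V * Vᴴ) * B := by simp only [Matrix.mul_assoc]
      _ = 1 := by rw [hV2, Matrix.mul_one, hC2]
  have hXiH : Xiᴴ * Xᴴ = 1 := by
    rw [← Matrix.conjTranspose_mul, hXXi, Matrix.conjTranspose_one]
  have hXHXi : Xᴴ * Xiᴴ = 1 := by
    rw [← Matrix.conjTranspose_mul, hXiX, Matrix.conjTranspose_one]
  have hYe : Y = Xiᴴ * Matrix.diagonal (fun i => 1 + Complex.I * ((t i : ℝ) : ℂ)) * Xi := by
    rw [← hXY]
    calc Y = (Xiᴴ * Xᴴ) * Y * (X * Xi) := by rw [hXiH, hXXi, Matrix.one_mul, Matrix.mul_one]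
      _ = _ := by simp only [Matrix.mul_assoc]
  have hYinv : Y * (X * Dv * Xᴴ) = 1 := by
    rw [hYe]
    calc Xiᴴ * Matrix.diagonal (fun i => 1 + Complex.I * ((t i : ℝ) : ℂ)) * Xi *
        (X * Dv * Xᴴ) = Xiᴴ * (Matrix.diagonal (fun i => 1 + Complex.I * ((t i : ℝ) : ℂ)) *
          (Xi * X) * Dv) * Xᴴ := by simp only [Matrix.mul_assoc]
      _ = 1 := by
        rw [hXiX, Matrix.mul_one, hDv, Matrix.diagonal_mul_diagonal]
        have : (fun i => (1 + Complex.I * ((t i : ℝ) : ℂ)) *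
            (1 + Complex.I * ((t i : ℝ) : ℂ))⁻¹) = fun _ => 1 := by
          funext i
          exact mul_inv_cancel₀ (hd i)
        rw [this, Matrix.diagonal_one, Matrix.mul_one, hXiH]
  have hKe : K = (2 * ζ) • (X * Dv * Xᴴ) := by
    have h1 : K * Y = (2 * ζ) • 1 := by rw [hY, Matrix.mul_smul, hW1]
    calc K = K * (Y * (X * Dv * Xᴴ)) := by rw [hYinv, Matrix.mul_one]
      _ = (K * Y) * (X * Dv * Xᴴ) := (Matrix.mul_assoc K Y _).symm
      _ = _ := by rw [h1, Matrix.smul_mul, Matrix.one_mul]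
  refine ⟨Xᴴ, fun i => ζ - 2 * ζ * (1 + Complex.I * ((t i : ℝ) : ℂ))⁻¹, ?_, ?_, ?_⟩
  · intro k
    have e : ζ - 2 * ζ * (1 + Complex.I * ((t k : ℝ) : ℂ))⁻¹ =
        ζ * ((Complex.I * (t k : ℂ) - 1) / (1 + Complex.I * (t k : ℂ))) := by
      have := hd k
      field_simp
      ring
    change ‖ζ - 2 * ζ * (1 + Complex.I * ((t k : ℝ) : ℂ))⁻¹‖ = 1
    rw [e, norm_mul, hζ, one_mul, norm_div]
    have e1 : ‖Complex.I * (t k : ℂ) - 1‖ = ‖1 + Complex.I * (t k : ℂ)‖ := by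
      have h1 : ‖Complex.I * (t k : ℂ) - 1‖ ^ 2 = ‖1 + Complex.I * (t k : ℂ)‖ ^ 2 := by
        rw [← Complex.normSq_eq_norm_sq, ← Complex.normSq_eq_norm_sq, Complex.normSq_apply,
          Complex.normSq_apply]
        simp
      exact (sq_eq_sq₀ (norm_nonneg _) (norm_nonneg _)).1 h1
    rw [e1]
    exact div_self (norm_ne_zero_iff.2 (hd k))
  · rw [Matrix.conjTranspose_conjTranspose, hXX]
    have e : 1 - C * C = C * (P - 1) * C := by
      rw [hPB, Matrix.mul_sub, Matrix.sub_mul, Matrix.mul_one]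
      have : C * (B * B) * C = 1 := by
        calc C * (B * B) * C = (C * B) * (B * C) := by simp only [Matrix.mul_assoc]
          _ = 1 := by rw [hC1, hC2, Matrix.one_mul]
      rw [this]
    rw [e]
    have := hP1'.conjTranspose_mul_mul_same C
    rwa [hCH] at this
  · rw [Matrix.conjTranspose_conjTranspose]
    have e : Matrix.diagonal (fun i => ζ - 2 * ζ * (1 + Complex.I * ((t i : ℝ) : ℂ))⁻¹) =
        ζ • (1 : Matrix ι ι ℂ) - (2 * ζ) • Dv := by
      rw [hDv, ← Matrix.diagonal_one, ← Matrix.diagonal_smul, ← Matrix.diagonal_smul,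
        Matrix.diagonal_sub]
      congr 1
      funext i
      simp
    rw [e, Matrix.mul_sub, Matrix.sub_mul, Matrix.mul_smul, Matrix.mul_one, Matrix.smul_mul,
      Matrix.mul_smul, Matrix.smul_mul, ← hKe, hK, smul_sub]
    abel

end Pool.Agent.H836_SV
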