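import Mathlib
import Pool.Agent.H836_SV.Rep

/-!
# The cap lemma
-/

set_option autoImplicit false
open Matrix
open scoped ComplexOrder

namespace Pool.Agent.H836_SV

variable {ι : Type*} [Fintype ι] [DecidableEq ι]

/-- the squared norm -/
noncomputable def nrm (v : ι → ℂ) : ℝ := ∑ i, ‖v i‖ ^ 2

/-- the quadratic form -/
noncomputable def qf (N : Matrix ι ι ℂ) (v : ι → ℂ) : ℂ := star v ⬝ᵥ (N *ᵥ v)

omit [DecidableEq ι] in
theorem nrm_eq (v : ι → ℂ) : star v ⬝ᵥ v = (nrm v : ℂ) := by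
  rw [dotProduct, nrm]
  push_cast
  refine Finset.sum_congr rfl fun i _ => ?_
  rw [Pi.star_apply, Complex.star_def, Complex.conj_mul']

omit [DecidableEq ι] in
theorem nrm_nonneg (v : ι → ℂ) : 0 ≤ nrm v := Finset.sum_nonneg fun _ _ => sq_nonneg _

omit [DecidableEq ι] in
theorem qf_conj (Γ M : Matrix ι ι ℂ) (v : ι → ℂ) : qf (Γᴴ * M * Γ) v = qf M (Γ *ᵥ v) := by
  rw [qf, qf, Matrix.star_mulVec, ← Matrix.dotProduct_mulVec, Matrix.mulVec_mulVec,
    Matrix.mulVec_mulVec]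

theorem qf_one (v : ι → ℂ) : qf (1 : Matrix ι ι ℂ) v = (nrm v : ℂ) := by
  rw [qf, Matrix.one_mulVec, nrm_eq]

omit [DecidableEq ι] in
theorem qf_add (M N : Matrix ι ι ℂ) (v : ι → ℂ) : qf (M + N) v = qf M v + qf N v := by
  rw [qf, Matrix.add_mulVec, dotProduct_add]; rfl

omit [DecidableEq ι] in
theorem qf_sub (M N : Matrix ι ι ℂ) (v : ι → ℂ) : qf (M - N) v = qf M v - qf N v := by
  rw [qf, Matrix.sub_mulVec, dotProduct_sub]; rfl

omit [DecidableEq ι] in
theorem qf_smul (c : ℂ) (M : Matrix ι ι ℂ) (v : ι → ℂ) : qf (c • M) v = c * qf M v := by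
  rw [qf, Matrix.smul_mulVec, dotProduct_smul]; rfl

theorem qf_diagonal (z : ι → ℂ) (v : ι → ℂ) :
    qf (Matrix.diagonal z) v = ∑ k, z k * (‖v k‖ ^ 2 : ℝ) := by
  rw [qf, dotProduct]
  refine Finset.sum_congr rfl fun k _ => ?_
  rw [Matrix.mulVec_diagonal, Pi.star_apply, Complex.star_def]
  have : (starRingEnd ℂ) (v k) * v k = ((‖v k‖ ^ 2 : ℝ) : ℂ) := by
    rw [Complex.conj_mul']; push_cast; rfl
  rw [← this]
  ring

omit [DecidableEq ι] in
theorem qf_conjTranspose (M : Matrix ι ι ℂ) (v : ι → ℂ) :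
    qf Mᴴ v = (starRingEnd ℂ) (qf M v) := by
  rw [qf, qf, ← Complex.star_def, star_dotProduct, Matrix.star_mulVec,
    Matrix.conjTranspose_conjTranspose, ← Matrix.dotProduct_mulVec]

omit [DecidableEq ι] in
theorem posSemidef_re {M : Matrix ι ι ℂ} (hM : M.PosSemidef) (v : ι → ℂ) : 0 ≤ (qf M v).re := by
  have h := hM.dotProduct_mulVec_nonneg v
  exact (Complex.le_def.1 h).1

theorem nrm_isometry {V : Matrix ι ι ℂ} (hV : Vᴴ * V = 1) (x : ι → ℂ) : nrm (V *ᵥ x) = nrm x := by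
  have h := qf_conj V 1 x
  rw [Matrix.mul_one, hV, qf_one, qf_one] at h
  exact_mod_cast h.symm

theorem caps {J : Type*} [Fintype J] {N : Matrix ι ι ℂ} (hN : (1 - Nᴴ * N).PosSemidef)
    (ω : J → ℂ) (c : J → ℝ) (V : J → Matrix ι ι ℂ) (s : J → Finset ι)
    (hV : ∀ j, (V j)ᴴ * V j = 1)
    (hq : ∀ j, ∀ x : ι → ℂ, (∀ i, i ∉ s j → x i = 0) →
      c j * nrm x ≤ ((starRingEnd ℂ) (ω j) * qf N (V j *ᵥ x)).re)
    {ζ : ℂ} (hζ : ‖ζ‖ = 1) (hu : IsUnit (ζ • (1 : Matrix ι ι ℂ) - N))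
    (hζc : ∀ j, ((starRingEnd ℂ) (ω j) * ζ).re < c j)
    (hdis : ∀ z : ℂ, ‖z‖ = 1 → ∀ j j', c j ≤ ((starRingEnd ℂ) (ω j) * z).re →
      c j' ≤ ((starRingEnd ℂ) (ω j') * z).re → j = j') :
    ∑ j, (s j).card ≤ Fintype.card ι := by
  classical
  obtain ⟨Γ, z, hz, hΓ, hNe⟩ := rep hN hζ hu
  set S : J → Finset ι := fun j =>
    Finset.univ.filter fun k => c j ≤ ((starRingEnd ℂ) (ω j) * z k).re with hS
  have hSsum : ∑ j, (S j).card ≤ Fintype.card ι := by
    rw [← Finset.card_biUnion]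
    · exact Finset.card_le_univ _
    · intro j _ j' _ hjj
      change Disjoint (S j) (S j')
      rw [Finset.disjoint_left]
      intro k hk hk'
      rw [hS, Finset.mem_filter] at hk hk'
      exact hjj (hdis (z k) (hz k) j j' hk.2 hk'.2)
  by_contra hcon
  push Not at hcon
  obtain ⟨j, -, hj⟩ := Finset.exists_lt_of_sum_lt (lt_of_le_of_lt hSsum hcon)
  -- a vector supported on `s j` with `(Γ V x) k = 0` on `S j`
  obtain ⟨x, hx0, hxs, hxz⟩ : ∃ x : ι → ℂ, x ≠ 0 ∧ (∀ i, i ∉ s j → x i = 0) ∧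
      ∀ k ∈ S j, (Γ *ᵥ (V j *ᵥ x)) k = 0 := by
    set M' : Matrix {k // k ∈ S j} {i // i ∈ s j} ℂ :=
      (Γ * V j).submatrix Subtype.val Subtype.val with hM'
    have hdim : Module.finrank ℂ ({k // k ∈ S j} → ℂ) < Module.finrank ℂ ({i // i ∈ s j} → ℂ) := by
      rw [Module.finrank_fintype_fun_eq_card, Module.finrank_fintype_fun_eq_card,
        Fintype.card_coe, Fintype.card_coe]
      exact hj
    have hker := LinearMap.ker_ne_bot_of_finrank_lt (f := Matrix.mulVecLin M') hdim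
    obtain ⟨y, hy, hy0⟩ := Submodule.exists_mem_ne_zero_of_ne_bot hker
    rw [LinearMap.mem_ker, Matrix.mulVecLin_apply] at hy
    refine ⟨fun i => if h : i ∈ s j then y ⟨i, h⟩ else 0, ?_, ?_, ?_⟩
    · intro h
      refine hy0 (funext fun i => ?_)
      have := congrFun h i.1
      simpa [i.2] using this
    · intro i hi
      simp [hi]
    · intro k hk
      have h1 := congrFun hy ⟨k, hk⟩
      rw [Matrix.mulVec_mulVec]
      rw [Matrix.mulVec, dotProduct] at h1 ⊢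
      rw [← Finset.sum_subset (Finset.subset_univ (s j))]
      · rw [← Finset.sum_coe_sort]
        simpa [hM'] using h1
      · intro i _ hi
        simp [hi]
  have hx := hq j x hxs
  set w := V j *ᵥ x with hw
  have hnw : nrm w = nrm x := nrm_isometry (hV j) x
  have hqe : qf N w = ζ * ((nrm w : ℂ) - (nrm (Γ *ᵥ w) : ℂ)) +
      ∑ k, z k * (‖(Γ *ᵥ w) k‖ ^ 2 : ℝ) := by
    conv_lhs => rw [hNe]
    rw [qf_add, qf_smul, qf_sub, qf_one, qf_conj, qf_diagonal]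
    have : qf (Γᴴ * Γ) w = (nrm (Γ *ᵥ w) : ℂ) := by
      have h := qf_conj Γ 1 w
      rwa [Matrix.mul_one, qf_one] at h
    rw [this]
  have hnΓ : nrm (Γ *ᵥ w) ≤ nrm w := by
    have h := posSemidef_re hΓ w
    have h' : qf (Γᴴ * Γ) w = (nrm (Γ *ᵥ w) : ℂ) := by
      have h := qf_conj Γ 1 w
      rwa [Matrix.mul_one, qf_one] at h
    rw [qf_sub, qf_one, h', Complex.sub_re, Complex.ofReal_re, Complex.ofReal_re] at h
    linarith
  have hre : ((starRingEnd ℂ) (ω j) * qf N w).re =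
      ((starRingEnd ℂ) (ω j) * ζ).re * (nrm w - nrm (Γ *ᵥ w)) +
      ∑ k, ((starRingEnd ℂ) (ω j) * z k).re * ‖(Γ *ᵥ w) k‖ ^ 2 := by
    rw [hqe, mul_add, Finset.mul_sum, Complex.add_re, Complex.re_sum]
    congr 1
    · rw [← mul_assoc, ← Complex.ofReal_sub, Complex.re_mul_ofReal]
    · refine Finset.sum_congr rfl fun k _ => ?_
      rw [← mul_assoc, Complex.re_mul_ofReal]
  have hterm : ∀ k, ((starRingEnd ℂ) (ω j) * z k).re * ‖(Γ *ᵥ w) k‖ ^ 2 ≤
      c j * ‖(Γ *ᵥ w) k‖ ^ 2 := by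
    intro k
    by_cases hk : k ∈ S j
    · rw [hxz k hk]; simp
    · refine mul_le_mul_of_nonneg_right ?_ (sq_nonneg _)
      rw [hS, Finset.mem_filter] at hk
      push Not at hk
      exact (hk (Finset.mem_univ k)).le
  have hsumle : ∑ k, ((starRingEnd ℂ) (ω j) * z k).re * ‖(Γ *ᵥ w) k‖ ^ 2 ≤
      c j * nrm (Γ *ᵥ w) := by
    rw [nrm, Finset.mul_sum]
    exact Finset.sum_le_sum fun k _ => hterm k
  have hxpos : 0 < nrm x := by
    obtain ⟨i, hi⟩ := Function.ne_iff.1 hx0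
    refine lt_of_lt_of_le ?_ (Finset.single_le_sum (f := fun i => ‖x i‖ ^ 2)
      (fun i _ => sq_nonneg _) (Finset.mem_univ i))
    have : 0 < ‖x i‖ := norm_pos_iff.2 hi
    positivity
  rw [hre] at hx
  rcases lt_or_eq_of_le hnΓ with hlt | heq
  · have := mul_lt_mul_of_pos_right (hζc j) (sub_pos.2 hlt)
    rw [mul_sub (c j), hnw] at this
    rw [hnw] at hx
    linarith
  · -- `nrm (Γ w) = nrm w > 0`: some entry is nonzero
    have hstrict : ∑ k, ((starRingEnd ℂ) (ω j) * z k).re * ‖(Γ *ᵥ w) k‖ ^ 2 <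
        c j * nrm (Γ *ᵥ w) := by
      rw [nrm, Finset.mul_sum]
      refine Finset.sum_lt_sum (fun k _ => hterm k) ?_
      have hpos : 0 < nrm (Γ *ᵥ w) := by rw [heq, hnw]; exact hxpos
      obtain ⟨k, -, hk⟩ := Finset.exists_ne_zero_of_sum_ne_zero hpos.ne'
      refine ⟨k, Finset.mem_univ k, ?_⟩
      have hkS : k ∉ S j := by
        intro h
        rw [hxz k h] at hk
        simp at hk
      rw [hS, Finset.mem_filter] at hkS
      push Not at hkS
      exact mul_lt_mul_of_pos_right (hkS (Finset.mem_univ k))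
        (lt_of_le_of_ne (sq_nonneg _) (Ne.symm hk))
    rw [heq, hnw] at hstrict
    rw [heq, sub_self, mul_zero, zero_add] at hx
    linarith

end Pool.Agent.H836_SV
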