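import Mathlib
import Pool.Agent.H836_SV.Caps

/-!
# The count inequality
-/

set_option autoImplicit false
open Matrix
open scoped ComplexOrder

namespace Pool.Agent.H836_SV

/-! ### The disc in the `(a, b)` coordinates -/

/-- `(a, b)` are coordinates of a point of the closed unit disc. -/
def Dr (c s a b : ℝ) : Prop := a ^ 2 + b ^ 2 - 2 * c * a * b ≤ s ^ 2

theorem Dr.center {c s a : ℝ} (hcs : c ^ 2 + s ^ 2 = 1) (ha : |a| ≤ 1) : Dr c s a (c * a) := by
  unfold Dr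
  have h1 : a ^ 2 ≤ 1 := by
    rw [← sq_abs]
    nlinarith [abs_nonneg a]
  have : a ^ 2 + (c * a) ^ 2 - 2 * c * a * (c * a) = s ^ 2 * a ^ 2 := by
    have : s ^ 2 = 1 - c ^ 2 := by linarith
    rw [this]; ring
  rw [this]
  nlinarith [sq_nonneg s]

theorem Dr.between {c s a b₁ b₂ b : ℝ} (h₁ : Dr c s a b₁) (h₂ : Dr c s a b₂) (hb₁ : b₁ ≤ b)
    (hb₂ : b ≤ b₂) : Dr c s a b := by
  unfold Dr at *
  rcases eq_or_lt_of_le (hb₁.trans hb₂) with h | h
  · have : b = b₁ := le_antisymm (by linarith) hb₁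
    rw [this]; exact h₁
  · have hkey : (b₂ - b₁) * (a ^ 2 + b ^ 2 - 2 * c * a * b - s ^ 2) ≤ 0 := by
      have e1 := mul_nonneg (sub_nonneg.2 hb₂) (sub_nonneg.2 h₁)
      have e2 := mul_nonneg (sub_nonneg.2 hb₁) (sub_nonneg.2 h₂)
      have e3 := mul_nonneg (mul_nonneg (sub_nonneg.2 hb₂) (sub_nonneg.2 hb₁)) (sub_nonneg.2 h.le)
      nlinarith
    by_contra hcon
    push Not at hcon
    nlinarith [mul_pos (sub_pos.2 h) (sub_pos.2 hcon)]

theorem Dr.convex {c s a₁ a₂ b₁ b₂ t : ℝ} (hcs : c ^ 2 + s ^ 2 = 1) (h₁ : Dr c s a₁ b₁)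
    (h₂ : Dr c s a₂ b₂) (ht0 : 0 ≤ t) (ht1 : t ≤ 1) :
    Dr c s ((1 - t) * a₁ + t * a₂) ((1 - t) * b₁ + t * b₂) := by
  unfold Dr at *
  have hc : c ^ 2 ≤ 1 := by nlinarith [sq_nonneg s]
  have hq : 0 ≤ (a₁ - a₂) ^ 2 + (b₁ - b₂) ^ 2 - 2 * c * (a₁ - a₂) * (b₁ - b₂) := by
    nlinarith [sq_nonneg (a₁ - a₂ - c * (b₁ - b₂)), mul_nonneg (sub_nonneg.2 hc)
      (sq_nonneg (b₁ - b₂))]
  have e : ((1 - t) * a₁ + t * a₂) ^ 2 + ((1 - t) * b₁ + t * b₂) ^ 2 -
      2 * c * ((1 - t) * a₁ + t * a₂) * ((1 - t) * b₁ + t * b₂) =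
      (1 - t) * (a₁ ^ 2 + b₁ ^ 2 - 2 * c * a₁ * b₁) + t * (a₂ ^ 2 + b₂ ^ 2 - 2 * c * a₂ * b₂) -
      t * (1 - t) * ((a₁ - a₂) ^ 2 + (b₁ - b₂) ^ 2 - 2 * c * (a₁ - a₂) * (b₁ - b₂)) := by
    ring
  rw [e]
  have h3 := mul_nonneg (mul_nonneg ht0 (sub_nonneg.2 ht1)) hq
  nlinarith [mul_le_mul_of_nonneg_left h₁ (sub_nonneg.2 ht1), mul_le_mul_of_nonneg_left h₂ ht0]

theorem Dr.abs_right {c s a b : ℝ} (hcs : c ^ 2 + s ^ 2 = 1) (hs : 0 < s) (h : Dr c s a b) :
    |b| ≤ 1 := by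
  unfold Dr at h
  rw [abs_le_one_iff_mul_self_le_one]
  have : s ^ 2 * b ^ 2 ≤ s ^ 2 * 1 := by
    have : s ^ 2 * b ^ 2 = (1 - c ^ 2) * b ^ 2 := by rw [← hcs]; ring
    nlinarith [sq_nonneg (a - c * b)]
  have := le_of_mul_le_mul_left this (by positivity)
  nlinarith

theorem Dr.abs_left {c s a b : ℝ} (hcs : c ^ 2 + s ^ 2 = 1) (hs : 0 < s) (h : Dr c s a b) :
    |a| ≤ 1 := by
  refine Dr.abs_right (c := c) (s := s) (a := b) hcs hs ?_
  unfold Dr at *
  linarith

/-- the point of the circle with given `b`, on either side -/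
theorem Dr.of_sq {c s p q : ℝ} (hcs : c ^ 2 + s ^ 2 = 1) (hpq : p ^ 2 + q ^ 2 = 1) :
    Dr c s (c * p - s * q) p := by
  unfold Dr
  have : (c * p - s * q) ^ 2 + p ^ 2 - 2 * c * (c * p - s * q) * p =
      (1 - c ^ 2) * p ^ 2 + s ^ 2 * q ^ 2 := by ring
  rw [this]
  have h1 : 1 - c ^ 2 = s ^ 2 := by linarith
  rw [h1]
  nlinarith

/-! ### Avoiding the eigenvalues -/

variable {ι : Type*} [Fintype ι] [DecidableEq ι]

theorem exists_generic (N : Matrix ι ι ℂ) {U : Set ℂ} (hU : IsOpen U) {ζ₀ : ℂ} (hζ₀ : ‖ζ₀‖ = 1)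
    (hζU : ζ₀ ∈ U) : ∃ ζ ∈ U, ‖ζ‖ = 1 ∧ IsUnit (ζ • (1 : Matrix ι ι ℂ) - N) := by
  classical
  set g : ℝ → ℂ := fun t => ζ₀ * Complex.exp (t * Complex.I) with hg
  have hgc : Continuous g := by fun_prop
  have hg0 : g 0 = ζ₀ := by simp [hg]
  have hT : g ⁻¹' U ∩ Set.Ioo (-1) 1 ∈ nhds (0 : ℝ) := by
    refine Filter.inter_mem ?_ (Ioo_mem_nhds (by norm_num) (by norm_num))
    exact hgc.continuousAt.preimage_mem_nhds (by rw [hg0]; exact hU.mem_nhds hζU)
  have hinf : (g ⁻¹' U ∩ Set.Ioo (-1) 1).Infinite := infinite_of_mem_nhds 0 hT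
  have hinj : Set.InjOn g (g ⁻¹' U ∩ Set.Ioo (-1) 1) := by
    intro t ht t' ht' h
    have hζne : ζ₀ ≠ 0 := by
      intro h0; rw [h0, norm_zero] at hζ₀; exact zero_ne_one hζ₀
    have h1 := mul_left_cancel₀ hζne h
    rw [Complex.exp_eq_exp_iff_exists_int] at h1
    obtain ⟨n, hn⟩ := h1
    have h2 : t = t' + n * (2 * Real.pi) := by
      have := congrArg Complex.im hn
      simpa using this
    have h3 : |t - t'| < 2 := by
      rw [abs_lt]
      constructor <;> linarith [ht.2.1, ht.2.2, ht'.2.1, ht'.2.2]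
    have hn0 : n = 0 := by
      by_contra hne
      have h4 : (1 : ℝ) ≤ |(n : ℝ)| := by
        exact_mod_cast Int.one_le_abs hne
      have h5 : t - t' = n * (2 * Real.pi) := by linarith
      rw [h5, abs_mul, abs_of_pos (by positivity : (0 : ℝ) < 2 * Real.pi)] at h3
      nlinarith [Real.pi_gt_three]
    rw [hn0] at h2
    simpa using h2
  have hinf' : (g '' (g ⁻¹' U ∩ Set.Ioo (-1) 1)).Infinite := hinf.image hinj
  obtain ⟨ζ, hζ, hζr⟩ := hinf'.exists_notMem_finset N.charpoly.roots.toFinset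
  obtain ⟨t, ht, rfl⟩ := hζ
  refine ⟨g t, ht.1, ?_, ?_⟩
  · rw [hg]
    simp only [norm_mul, hζ₀, one_mul]
    exact Complex.norm_exp_ofReal_mul_I t
  · rw [Matrix.isUnit_iff_isUnit_det, isUnit_iff_ne_zero]
    intro h
    apply hζr
    rw [Multiset.mem_toFinset, Polynomial.mem_roots (Matrix.charpoly_monic N).ne_zero,
      Polynomial.IsRoot.def, Matrix.eval_charpoly, ← h]
    congr 2
    ext i j
    simp [Matrix.scalar_apply, Matrix.diagonal_apply, Matrix.one_apply]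

/-! ### Four caps -/

theorem sum_ge_of_supported {V : Matrix ι ι ℂ} {b : ι → ℝ} {f : (ι → ℂ) → ℝ}
    (hf : ∀ x, f (V *ᵥ x) = ∑ k, b k * ‖x k‖ ^ 2) {y : ℝ} {s : Finset ι}
    (hs : ∀ k ∈ s, y ≤ b k) {x : ι → ℂ} (hx : ∀ i, i ∉ s → x i = 0) :
    y * nrm x ≤ f (V *ᵥ x) := by
  rw [hf, nrm, Finset.mul_sum]
  refine Finset.sum_le_sum fun k _ => ?_
  by_cases hk : k ∈ s
  · exact mul_le_mul_of_nonneg_right (hs k hk) (sq_nonneg _)
  · rw [hx k hk]; simp

/-- The count for four disjoint caps `{b ≤ x}, {b ≥ y}, {a ≤ m₁}, {a ≥ m₂}`. -/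
theorem four_caps {N : Matrix ι ι ℂ} (hN : (1 - Nᴴ * N).PosSemidef) {ν : ℂ}
    {a b : ι → ℝ} {Va Vb : Matrix ι ι ℂ} (hVa : Vaᴴ * Va = 1) (hVb : Vbᴴ * Vb = 1)
    (ha : ∀ x, ((starRingEnd ℂ) ν * qf N (Va *ᵥ x)).re = ∑ k, a k * ‖x k‖ ^ 2)
    (hb : ∀ x, (qf N (Vb *ᵥ x)).re = ∑ k, b k * ‖x k‖ ^ 2)
    {x y m₁ m₂ : ℝ} {ζ₀ : ℂ} (hζ₀ : ‖ζ₀‖ = 1) (h1 : x < ζ₀.re) (h2 : ζ₀.re < y)
    (h3 : m₁ < ((starRingEnd ℂ) ν * ζ₀).re) (h4 : ((starRingEnd ℂ) ν * ζ₀).re < m₂)
    (hx1 : ∀ z : ℂ, ‖z‖ = 1 → z.re ≤ x → m₁ < ((starRingEnd ℂ) ν * z).re)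
    (hx2 : ∀ z : ℂ, ‖z‖ = 1 → z.re ≤ x → ((starRingEnd ℂ) ν * z).re < m₂)
    (hy1 : ∀ z : ℂ, ‖z‖ = 1 → y ≤ z.re → m₁ < ((starRingEnd ℂ) ν * z).re)
    (hy2 : ∀ z : ℂ, ‖z‖ = 1 → y ≤ z.re → ((starRingEnd ℂ) ν * z).re < m₂) :
    (Finset.univ.filter fun k => b k ≤ x).card + (Finset.univ.filter fun k => y ≤ b k).card +
      (Finset.univ.filter fun k => a k ≤ m₁).card + (Finset.univ.filter fun k => m₂ ≤ a k).card
      ≤ Fintype.card ι := by
  classical
  obtain ⟨ζ, hζU, hζ, hu⟩ := exists_generic N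
    (U := {z : ℂ | x < z.re ∧ z.re < y ∧ m₁ < ((starRingEnd ℂ) ν * z).re ∧
      ((starRingEnd ℂ) ν * z).re < m₂}) (by
        refine IsOpen.and ?_ (IsOpen.and ?_ (IsOpen.and ?_ ?_))
        · exact isOpen_lt continuous_const Complex.continuous_re
        · exact isOpen_lt Complex.continuous_re continuous_const
        · exact isOpen_lt continuous_const (by fun_prop)
        · exact isOpen_lt (by fun_prop) continuous_const) hζ₀ ⟨h1, h2, h3, h4⟩
  obtain ⟨g1, g2, g3, g4⟩ := hζU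
  have key := caps hN (J := Fin 4) ![-1, 1, -ν, ν] ![-x, y, -m₁, m₂] ![Vb, Vb, Va, Va]
    ![Finset.univ.filter fun k => b k ≤ x, Finset.univ.filter fun k => y ≤ b k,
      Finset.univ.filter fun k => a k ≤ m₁, Finset.univ.filter fun k => m₂ ≤ a k]
    (by
      intro j
      fin_cases j
      · exact hVb
      · exact hVb
      · exact hVa
      · exact hVa)
    (by
      intro j
      fin_cases j
      · intro v hv
        have := sum_ge_of_supported (V := Vb) (b := fun k => - b k)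
          (f := fun v => ((starRingEnd ℂ) (-1) * qf N v).re) (y := -x)
          (s := Finset.univ.filter fun k => b k ≤ x)
          (fun v => by
            have := hb v
            simp only [map_neg, map_one, neg_mul, one_mul, Complex.neg_re, this,
              Finset.sum_neg_distrib]) (fun k hk => by
              rw [Finset.mem_filter] at hk; linarith [hk.2]) hv
        exact this
      · intro v hv
        have := sum_ge_of_supported (V := Vb) (b := b)
          (f := fun v => ((starRingEnd ℂ) (1) * qf N v).re) (y := y)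
          (s := Finset.univ.filter fun k => y ≤ b k)
          (fun v => by
            have := hb v
            simp only [map_one, one_mul, this]) (fun k hk => by
              rw [Finset.mem_filter] at hk; linarith [hk.2]) hv
        exact this
      · intro v hv
        have := sum_ge_of_supported (V := Va) (b := fun k => - a k)
          (f := fun v => ((starRingEnd ℂ) (-ν) * qf N v).re) (y := -m₁)
          (s := Finset.univ.filter fun k => a k ≤ m₁)
          (fun v => by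
            have := ha v
            simp only [map_neg, neg_mul, Complex.neg_re, this,
              Finset.sum_neg_distrib]) (fun k hk => by
              rw [Finset.mem_filter] at hk; linarith [hk.2]) hv
        exact this
      · intro v hv
        have := sum_ge_of_supported (V := Va) (b := a)
          (f := fun v => ((starRingEnd ℂ) (ν) * qf N v).re) (y := m₂)
          (s := Finset.univ.filter fun k => m₂ ≤ a k)
          (fun v => ha v) (fun k hk => by
              rw [Finset.mem_filter] at hk; linarith [hk.2]) hv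
        exact this)
    hζ hu
    (by
      intro j
      fin_cases j
      · simpa using g1
      · simpa using g2
      · simpa [neg_mul] using g3
      · exact g4)
    (by
      intro z hz
      have e0 : ((starRingEnd ℂ) (-1) * z).re = - z.re := by simp
      have e1 : ((starRingEnd ℂ) (1) * z).re = z.re := by simp
      have e2 : ((starRingEnd ℂ) (-ν) * z).re = - ((starRingEnd ℂ) ν * z).re := by
        rw [map_neg, neg_mul, Complex.neg_re]
      have a1 := hx1 z hz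
      have a2 := hx2 z hz
      have a3 := hy1 z hz
      have a4 := hy2 z hz
      have E : ∀ j : Fin 4, ((starRingEnd ℂ) ((![-1, 1, -ν, ν] : Fin 4 → ℂ) j) * z).re =
          (![-z.re, z.re, -((starRingEnd ℂ) ν * z).re, ((starRingEnd ℂ) ν * z).re] :
            Fin 4 → ℝ) j := by
        intro j
        fin_cases j
        · exact e0
        · exact e1
        · exact e2
        · rfl
      intro j j' u u'
      rw [E] at u u'
      generalize ((starRingEnd ℂ) ν * z).re = A at *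
      fin_cases j <;> fin_cases j' <;> first | rfl | exfalso
      all_goals
        simp only [Fin.zero_eta, Fin.mk_one, Fin.reduceFinMk, Matrix.cons_val_zero,
          Matrix.cons_val_one, Matrix.cons_val] at u u'
      · linarith
      · linarith [a1 (by linarith)]
      · linarith [a2 (by linarith)]
      · linarith
      · linarith [a3 (by linarith)]
      · linarith [a4 (by linarith)]
      · linarith [a1 (by linarith)]
      · linarith [a3 (by linarith)]
      · linarith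
      · linarith [a2 (by linarith)]
      · linarith [a4 (by linarith)]
      · linarith)
  rw [Fin.sum_univ_four] at key
  simpa using key

/-! ### A point of the circle just above a level -/

theorem near (c s : ℝ) {x y m₁ m₂ : ℝ} (h1 : m₁ < c * x - s * Real.sqrt (1 - x ^ 2))
    (h2 : c * x - s * Real.sqrt (1 - x ^ 2) < m₂) (hy : x < y) (hx : -1 ≤ x) (hx1 : x < 1) :
    ∃ ζ : ℂ, ‖ζ‖ = 1 ∧ x < ζ.re ∧ ζ.re < y ∧ m₁ < c * ζ.re - s * ζ.im ∧
      c * ζ.re - s * ζ.im < m₂ := by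
  have hc : Continuous fun b : ℝ => c * b - s * Real.sqrt (1 - b ^ 2) := by fun_prop
  have e1 : ∀ᶠ b in nhds x, m₁ < c * b - s * Real.sqrt (1 - b ^ 2) :=
    hc.continuousAt.eventually (lt_mem_nhds h1)
  have e2 : ∀ᶠ b in nhds x, c * b - s * Real.sqrt (1 - b ^ 2) < m₂ :=
    hc.continuousAt.eventually (gt_mem_nhds h2)
  have e3 : ∀ᶠ b in nhds x, b < y := gt_mem_nhds hy
  have e4 : ∀ᶠ b in nhds x, b < 1 := gt_mem_nhds hx1
  have e5 : ∀ᶠ b in nhdsWithin x (Set.Ioi x), x < b := self_mem_nhdsWithin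
  obtain ⟨b, ⟨⟨⟨g1, g2⟩, g3⟩, g4⟩, g5⟩ :=
    (((((e1.and e2).and e3).and e4).filter_mono nhdsWithin_le_nhds).and e5).exists
  refine ⟨⟨b, Real.sqrt (1 - b ^ 2)⟩, ?_, g5, g3, g1, g2⟩
  have h0 : 0 ≤ 1 - b ^ 2 := by nlinarith
  have : Complex.normSq ⟨b, Real.sqrt (1 - b ^ 2)⟩ = 1 := by
    rw [Complex.normSq_mk, Real.mul_self_sqrt h0]; ring
  rw [Complex.norm_def, this, Real.sqrt_one]

/-- `(a, b)` coordinates of points of the circle -/
theorem Dr.of_unit {c s : ℝ} (hcs : c ^ 2 + s ^ 2 = 1) {z : ℂ} (hz : ‖z‖ = 1) :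
    Dr c s (c * z.re - s * z.im) z.re := by
  refine Dr.of_sq hcs ?_
  have := Complex.sq_norm z
  rw [hz, Complex.normSq_apply] at this
  linarith

theorem conj_mul_re (c s : ℝ) (z : ℂ) :
    ((starRingEnd ℂ) (⟨c, -s⟩ : ℂ) * z).re = c * z.re - s * z.im := by
  rw [Complex.mul_re]
  simp

/-- The count when the shadow `P` of the two caps is an interval. -/
theorem count_interval {N : Matrix ι ι ℂ} (hN : (1 - Nᴴ * N).PosSemidef) {c s : ℝ}
    (hcs : c ^ 2 + s ^ 2 = 1) (hs : 0 < s)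
    {a b : ι → ℝ} {Va Vb : Matrix ι ι ℂ} (hVa : Vaᴴ * Va = 1) (hVb : Vbᴴ * Vb = 1)
    (ha : ∀ x, ((starRingEnd ℂ) (⟨c, -s⟩ : ℂ) * qf N (Va *ᵥ x)).re = ∑ k, a k * ‖x k‖ ^ 2)
    (hb : ∀ x, (qf N (Vb *ᵥ x)).re = ∑ k, b k * ‖x k‖ ^ 2)
    {x y : ℝ} (hxy : x < y) (hx1 : x < 1) (hy1 : -1 < y) (P : ℝ → Prop) [DecidablePred P]
    (hP : ∀ t, P t ↔ ∃ b', Dr c s t b' ∧ (b' ≤ x ∨ y ≤ b'))
    (hconv : ∀ t₁ t₂ t, P t₁ → P t₂ → t₁ ≤ t → t ≤ t₂ → P t) (hne : ∃ t, P t) :
    (Finset.univ.filter fun k => b k ≤ x).card + (Finset.univ.filter fun k => y ≤ b k).card +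
      (Finset.univ.filter fun k => ¬ P (a k)).card ≤ Fintype.card ι := by
  classical
  obtain ⟨p₀, hp₀⟩ := hne
  have hPabs : ∀ t, P t → |t| ≤ 1 := by
    intro t ht
    obtain ⟨b', hb', -⟩ := (hP t).1 ht
    exact hb'.abs_left hcs hs
  set S₁ : Finset ℝ := insert (-2)
    ((Finset.univ.filter fun k => ¬ P (a k) ∧ a k < p₀).image a) with hS₁
  set S₂ : Finset ℝ := insert 2
    ((Finset.univ.filter fun k => ¬ P (a k) ∧ p₀ < a k).image a) with hS₂
  have hne₁ : S₁.Nonempty := ⟨-2, Finset.mem_insert_self _ _⟩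
  have hne₂ : S₂.Nonempty := ⟨2, Finset.mem_insert_self _ _⟩
  set m₁ := S₁.max' hne₁ with hm₁
  set m₂ := S₂.min' hne₂ with hm₂
  have F1 : ∀ t, P t → m₁ < t := by
    intro t ht
    have hmem := S₁.max'_mem hne₁
    rw [← hm₁] at hmem
    rw [hS₁, Finset.mem_insert, Finset.mem_image] at hmem
    have := abs_le.1 (hPabs t ht)
    rcases hmem with h | ⟨k, hk, hk'⟩
    · rw [h]; linarith
    · rw [Finset.mem_filter] at hk
      by_contra hcon
      push Not at hcon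
      rw [← hk'] at hcon
      exact hk.2.1 (hconv t p₀ (a k) ht hp₀ hcon hk.2.2.le)
  have F2 : ∀ t, P t → t < m₂ := by
    intro t ht
    have hmem := S₂.min'_mem hne₂
    rw [← hm₂] at hmem
    rw [hS₂, Finset.mem_insert, Finset.mem_image] at hmem
    have := abs_le.1 (hPabs t ht)
    rcases hmem with h | ⟨k, hk, hk'⟩
    · rw [h]; linarith
    · rw [Finset.mem_filter] at hk
      by_contra hcon
      push Not at hcon
      rw [← hk'] at hcon
      exact hk.2.1 (hconv p₀ t (a k) hp₀ ht hk.2.2.le hcon)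
  have F3 : (Finset.univ.filter fun k => ¬ P (a k)).card ≤
      (Finset.univ.filter fun k => a k ≤ m₁).card +
      (Finset.univ.filter fun k => m₂ ≤ a k).card := by
    refine le_trans (Finset.card_le_card ?_) (Finset.card_union_le _ _)
    intro k hk
    rw [Finset.mem_filter] at hk
    rw [Finset.mem_union, Finset.mem_filter, Finset.mem_filter]
    rcases lt_trichotomy (a k) p₀ with h | h | h
    · left
      refine ⟨Finset.mem_univ k, Finset.le_max' S₁ _ ?_⟩
      rw [hS₁, Finset.mem_insert, Finset.mem_image]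
      exact Or.inr ⟨k, by rw [Finset.mem_filter]; exact ⟨Finset.mem_univ k, hk.2, h⟩, rfl⟩
    · exact absurd (h ▸ hp₀) hk.2
    · right
      refine ⟨Finset.mem_univ k, Finset.min'_le S₂ _ ?_⟩
      rw [hS₂, Finset.mem_insert, Finset.mem_image]
      exact Or.inr ⟨k, by rw [Finset.mem_filter]; exact ⟨Finset.mem_univ k, hk.2, h⟩, rfl⟩
  have hcirc : ∀ z : ℂ, ‖z‖ = 1 → (z.re ≤ x ∨ y ≤ z.re) → P (c * z.re - s * z.im) := by
    intro z hz h
    rw [hP]
    exact ⟨z.re, Dr.of_unit hcs hz, h⟩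
  -- the point of the circle outside of the four caps
  obtain ⟨ζ₀, hζ₀, g1, g2, g3, g4⟩ : ∃ ζ : ℂ, ‖ζ‖ = 1 ∧ x < ζ.re ∧ ζ.re < y ∧
      m₁ < c * ζ.re - s * ζ.im ∧ c * ζ.re - s * ζ.im < m₂ := by
    obtain ⟨b', hb', hor⟩ := (hP p₀).1 hp₀
    have habs := abs_le.1 (hb'.abs_right hcs hs)
    have hunit : ∀ t : ℝ, -1 ≤ t → t ≤ 1 → t ^ 2 + Real.sqrt (1 - t ^ 2) ^ 2 = 1 := by
      intro t h1 h2
      rw [Real.sq_sqrt (by nlinarith)]; ring
    rcases hor with h | h
    · have hxge : -1 ≤ x := habs.1.trans h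
      have hPx : P (c * x - s * Real.sqrt (1 - x ^ 2)) := by
        rw [hP]
        exact ⟨x, Dr.of_sq hcs (hunit x hxge hx1.le), Or.inl le_rfl⟩
      exact near c s (F1 _ hPx) (F2 _ hPx) hxy hxge hx1
    · have hyle : y ≤ 1 := h.trans habs.2
      have hPy : P (c * y - s * (-Real.sqrt (1 - y ^ 2))) := by
        rw [hP]
        refine ⟨y, Dr.of_sq hcs ?_, Or.inr le_rfl⟩
        rw [neg_sq]
        exact hunit y hy1.le hyle
      obtain ⟨ζ, hζ, k1, k2, k3, k4⟩ := near c s (x := -y) (y := -x) (m₁ := -m₂) (m₂ := -m₁)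
        (by rw [neg_sq]; linarith [F2 _ hPy]) (by rw [neg_sq]; linarith [F1 _ hPy])
        (neg_lt_neg hxy) (by linarith) (by linarith)
      refine ⟨-ζ, by rw [norm_neg]; exact hζ, ?_, ?_, ?_, ?_⟩ <;>
        rw [Complex.neg_re] <;> (try rw [Complex.neg_im]) <;> linarith
  have key := four_caps hN hVa hVb ha hb hζ₀ g1 g2 (m₁ := m₁) (m₂ := m₂)
    (by rw [conj_mul_re]; exact g3) (by rw [conj_mul_re]; exact g4)
    (fun z hz h => by rw [conj_mul_re]; exact F1 _ (hcirc z hz (Or.inl h)))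
    (fun z hz h => by rw [conj_mul_re]; exact F2 _ (hcirc z hz (Or.inl h)))
    (fun z hz h => by rw [conj_mul_re]; exact F1 _ (hcirc z hz (Or.inr h)))
    (fun z hz h => by rw [conj_mul_re]; exact F2 _ (hcirc z hz (Or.inr h)))
  linarith

end Pool.Agent.H836_SV
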