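import Mathlib
import Pool.Agent.H836_SV.Count

/-!
# The count inequality in general and the matching
-/

set_option autoImplicit false
open Matrix
open scoped ComplexOrder

namespace Pool.Agent.H836_SV

variable {ι : Type*} [Fintype ι] [DecidableEq ι]

/-- projections of slices of the disc are intervals -/
theorem shadow_conv {c s : ℝ} (hcs : c ^ 2 + s ^ 2 = 1) {Q : ℝ → Prop}
    (hQ : ∀ b₁ b₂ t : ℝ, Q b₁ → Q b₂ → 0 ≤ t → t ≤ 1 → Q ((1 - t) * b₁ + t * b₂))
    {t₁ t₂ t : ℝ} (h₁ : ∃ b, Dr c s t₁ b ∧ Q b) (h₂ : ∃ b, Dr c s t₂ b ∧ Q b) (hl : t₁ ≤ t)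
    (hr : t ≤ t₂) : ∃ b, Dr c s t b ∧ Q b := by
  obtain ⟨b₁, hb₁, hQ₁⟩ := h₁
  obtain ⟨b₂, hb₂, hQ₂⟩ := h₂
  rcases eq_or_lt_of_le (hl.trans hr) with h | h
  · have : t = t₁ := le_antisymm (by linarith) hl
    rw [this]
    exact ⟨b₁, hb₁, hQ₁⟩
  · set u := (t - t₁) / (t₂ - t₁) with hu
    have hpos : 0 < t₂ - t₁ := sub_pos.2 h
    have hu0 : 0 ≤ u := div_nonneg (sub_nonneg.2 hl) hpos.le
    have hu1 : u ≤ 1 := by rw [hu, div_le_one hpos]; linarith
    have ht : t = (1 - u) * t₁ + u * t₂ := by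
      have : u * (t₂ - t₁) = t - t₁ := div_mul_cancel₀ _ hpos.ne'
      linarith
    refine ⟨(1 - u) * b₁ + u * b₂, ?_, hQ _ _ _ hQ₁ hQ₂ hu0 hu1⟩
    rw [ht]
    exact Dr.convex hcs hb₁ hb₂ hu0 hu1

/-- The count inequality. -/
theorem count {N : Matrix ι ι ℂ} (hN : (1 - Nᴴ * N).PosSemidef) {c s : ℝ}
    (hcs : c ^ 2 + s ^ 2 = 1) (hs : 0 < s)
    {a b : ι → ℝ} {Va Vb : Matrix ι ι ℂ} (hVa : Vaᴴ * Va = 1) (hVb : Vbᴴ * Vb = 1)
    (ha : ∀ x, ((starRingEnd ℂ) (⟨c, -s⟩ : ℂ) * qf N (Va *ᵥ x)).re = ∑ k, a k * ‖x k‖ ^ 2)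
    (hb : ∀ x, (qf N (Vb *ᵥ x)).re = ∑ k, b k * ‖x k‖ ^ 2)
    (ha1 : ∀ k, |a k| ≤ 1)
    {x y : ℝ} (hxy : x < y) (hne : (∃ b', |b'| ≤ 1 ∧ b' ≤ x) ∨ (∃ b', |b'| ≤ 1 ∧ y ≤ b'))
    (T : Finset ι) (hT : ∀ k ∈ T, ∀ b', Dr c s (a k) b' → x < b' ∧ b' < y) :
    (Finset.univ.filter fun k => b k ≤ x).card + (Finset.univ.filter fun k => y ≤ b k).card +
      T.card ≤ Fintype.card ι := by
  classical
  rcases T.eq_empty_or_nonempty with hT0 | ⟨k₀, hk₀⟩
  · rw [hT0, Finset.card_empty, add_zero, ← Finset.card_union_of_disjoint]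
    · exact Finset.card_le_univ _
    · rw [Finset.disjoint_left]
      intro k hk hk'
      rw [Finset.mem_filter] at hk hk'
      linarith [hk.2, hk'.2]
  have hcen := hT k₀ hk₀ _ (Dr.center hcs (ha1 k₀))
  have hcabs : |c * a k₀| ≤ 1 := by
    have hc : |c| ≤ 1 := by
      rw [abs_le_one_iff_mul_self_le_one]
      nlinarith [sq_nonneg s]
    rw [abs_mul]
    nlinarith [abs_nonneg c, abs_nonneg (a k₀), ha1 k₀]
  have hx1 : x < 1 := lt_of_lt_of_le hcen.1 (abs_le.1 hcabs).2
  have hy1 : -1 < y := lt_of_le_of_lt (abs_le.1 hcabs).1 hcen.2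
  set Pm : ℝ → Prop := fun t => ∃ b', Dr c s t b' ∧ b' ≤ x with hPm
  set Pp : ℝ → Prop := fun t => ∃ b', Dr c s t b' ∧ y ≤ b' with hPp
  have cm : ∀ t₁ t₂ t, Pm t₁ → Pm t₂ → t₁ ≤ t → t ≤ t₂ → Pm t := by
    intro t₁ t₂ t h1 h2 hl hr
    exact shadow_conv hcs (Q := fun b => b ≤ x) (fun b₁ b₂ t h1 h2 h3 h4 => by nlinarith)
      h1 h2 hl hr
  have cp : ∀ t₁ t₂ t, Pp t₁ → Pp t₂ → t₁ ≤ t → t ≤ t₂ → Pp t := by
    intro t₁ t₂ t h1 h2 hl hr
    exact shadow_conv hcs (Q := fun b => y ≤ b) (fun b₁ b₂ t h1 h2 h3 h4 => by nlinarith)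
      h1 h2 hl hr
  have hTm : ∀ k ∈ T, ¬ Pm (a k) := by
    rintro k hk ⟨b', hb', hb''⟩
    linarith [(hT k hk b' hb').1]
  have hTp : ∀ k ∈ T, ¬ Pp (a k) := by
    rintro k hk ⟨b', hb', hb''⟩
    linarith [(hT k hk b' hb').2]
  have exists_of : ∀ b', |b'| ≤ 1 → Dr c s (c * b') b' := by
    intro b' hb'
    have := Dr.center (c := c) (s := s) hcs hb'
    unfold Dr at *
    linarith
  -- one-sided counts
  have onem : (∃ t, Pm t) → (Finset.univ.filter fun k => b k ≤ x).card +
      (Finset.univ.filter fun k => ¬ Pm (a k)).card ≤ Fintype.card ι := by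
    intro hex
    have := count_interval hN hcs hs hVa hVb ha hb (x := x) (y := 2) (by linarith) hx1
      (by norm_num) Pm (by
        intro t
        constructor
        · rintro ⟨b', h1, h2⟩; exact ⟨b', h1, Or.inl h2⟩
        · rintro ⟨b', h1, h2 | h2⟩
          · exact ⟨b', h1, h2⟩
          · have := (abs_le.1 (h1.abs_right hcs hs)).2
            linarith) cm hex
    omega
  have onep : (∃ t, Pp t) → (Finset.univ.filter fun k => y ≤ b k).card +
      (Finset.univ.filter fun k => ¬ Pp (a k)).card ≤ Fintype.card ι := by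
    intro hex
    have := count_interval hN hcs hs hVa hVb ha hb (x := -2) (y := y) (by linarith) (by norm_num)
      hy1 Pp (by
        intro t
        constructor
        · rintro ⟨b', h1, h2⟩; exact ⟨b', h1, Or.inr h2⟩
        · rintro ⟨b', h1, h2 | h2⟩
          · have := (abs_le.1 (h1.abs_right hcs hs)).1
            linarith
          · exact ⟨b', h1, h2⟩) cp hex
    omega
  by_cases hcase : (∃ t, Pm t) ∧ (∃ t, Pp t) ∧ ∀ t, ¬ (Pm t ∧ Pp t)
  · obtain ⟨h1, h2, h3⟩ := hcase
    have k1 := onem h1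
    have k2 := onep h2
    have k3 : Fintype.card ι + T.card ≤ (Finset.univ.filter fun k => ¬ Pm (a k)).card +
        (Finset.univ.filter fun k => ¬ Pp (a k)).card := by
      rw [← Finset.card_union_add_card_inter]
      refine add_le_add ?_ (Finset.card_le_card ?_)
      · rw [← Finset.card_univ]
        refine Finset.card_le_card ?_
        intro k _
        rw [Finset.mem_union, Finset.mem_filter, Finset.mem_filter]
        by_cases h : Pm (a k)
        · exact Or.inr ⟨Finset.mem_univ k, fun h' => h3 _ ⟨h, h'⟩⟩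
        · exact Or.inl ⟨Finset.mem_univ k, h⟩
      · intro k hk
        rw [Finset.mem_inter, Finset.mem_filter, Finset.mem_filter]
        exact ⟨⟨Finset.mem_univ k, hTm k hk⟩, ⟨Finset.mem_univ k, hTp k hk⟩⟩
    omega
  · have := count_interval hN hcs hs hVa hVb ha hb hxy hx1 hy1 (fun t => Pm t ∨ Pp t) (by
        intro t
        constructor
        · rintro (⟨b', h1, h2⟩ | ⟨b', h1, h2⟩)
          · exact ⟨b', h1, Or.inl h2⟩
          · exact ⟨b', h1, Or.inr h2⟩
        · rintro ⟨b', h1, h2 | h2⟩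
          · exact Or.inl ⟨b', h1, h2⟩
          · exact Or.inr ⟨b', h1, h2⟩)
      (by
        intro t₁ t₂ t h1 h2 hl hr
        rcases h1 with h1 | h1 <;> rcases h2 with h2 | h2
        · exact Or.inl (cm t₁ t₂ t h1 h2 hl hr)
        · obtain ⟨t₀, h3, h4⟩ : ∃ t, Pm t ∧ Pp t := by
            by_contra hcon
            push Not at hcon
            exact hcase ⟨⟨_, h1⟩, ⟨_, h2⟩, fun t ht => hcon t ht.1 ht.2⟩
          rcases le_total t t₀ with h | h
          · exact Or.inl (cm t₁ t₀ t h1 h3 hl h)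
          · exact Or.inr (cp t₀ t₂ t h4 h2 h hr)
        · obtain ⟨t₀, h3, h4⟩ : ∃ t, Pm t ∧ Pp t := by
            by_contra hcon
            push Not at hcon
            exact hcase ⟨⟨_, h2⟩, ⟨_, h1⟩, fun t ht => hcon t ht.1 ht.2⟩
          rcases le_total t t₀ with h | h
          · exact Or.inr (cp t₁ t₀ t h1 h4 hl h)
          · exact Or.inl (cm t₀ t₂ t h3 h2 h hr)
        · exact Or.inr (cp t₁ t₂ t h1 h2 hl hr))
      (by
        rcases hne with ⟨b', h1, h2⟩ | ⟨b', h1, h2⟩
        · exact ⟨c * b', Or.inl ⟨b', exists_of b' h1, h2⟩⟩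
        · exact ⟨c * b', Or.inr ⟨b', exists_of b' h1, h2⟩⟩)
    refine le_trans (Nat.add_le_add_left (Finset.card_le_card ?_) _) this
    intro k hk
    rw [Finset.mem_filter]
    refine ⟨Finset.mem_univ k, ?_⟩
    rintro (h | h)
    · exact hTm k hk h
    · exact hTp k hk h

/-- The matching. -/
theorem matching {N : Matrix ι ι ℂ} (hN : (1 - Nᴴ * N).PosSemidef) {c s : ℝ}
    (hcs : c ^ 2 + s ^ 2 = 1) (hs : 0 < s)
    {a b : ι → ℝ} {Va Vb : Matrix ι ι ℂ} (hVa : Vaᴴ * Va = 1) (hVb : Vbᴴ * Vb = 1)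
    (ha : ∀ x, ((starRingEnd ℂ) (⟨c, -s⟩ : ℂ) * qf N (Va *ᵥ x)).re = ∑ k, a k * ‖x k‖ ^ 2)
    (hb : ∀ x, (qf N (Vb *ᵥ x)).re = ∑ k, b k * ‖x k‖ ^ 2)
    (ha1 : ∀ k, |a k| ≤ 1) (hb1 : ∀ k, |b k| ≤ 1) :
    ∃ σ : Equiv.Perm ι, ∀ k, Dr c s (a k) (b (σ k)) := by
  classical
  set t : ι → Finset ι := fun i => Finset.univ.filter fun j => Dr c s (a i) (b j) with ht
  have hmem : ∀ i j, j ∈ t i ↔ Dr c s (a i) (b j) := by
    intro i j
    rw [ht]
    simp
  have hall : ∀ S : Finset ι, S.card ≤ (S.biUnion t).card := by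
    intro S
    induction S using Finset.strongInduction with
    | H S ih =>
      by_contra hcon
      push Not at hcon
      have hS : S.Nonempty := by
        rw [← Finset.card_pos]
        exact lt_of_le_of_lt (Nat.zero_le _) hcon
      obtain ⟨i₀, hi₀⟩ := hS
      set K : Finset ι := (S.biUnion t)ᶜ with hK
      have hKmem : ∀ j ∈ K, ∀ i ∈ S, ¬ Dr c s (a i) (b j) := by
        intro j hj i hi h
        rw [hK, Finset.mem_compl, Finset.mem_biUnion] at hj
        exact hj ⟨i, hi, (hmem i j).2 h⟩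
      have hcen : ∀ i, Dr c s (a i) (c * a i) := fun i => Dr.center hcs (ha1 i)
      have hside : ∀ j ∈ K, (∀ i ∈ S, b j < c * a i) ∨ (∀ i ∈ S, c * a i < b j) := by
        intro j hj
        by_contra hno
        push Not at hno
        obtain ⟨⟨i₁, hi₁, h₁⟩, ⟨i₂, hi₂, h₂⟩⟩ := hno
        set S₁ := S.filter fun i => c * a i < b j with hS₁
        set S₂ := S.filter fun i => ¬ c * a i < b j with hS₂
        have hi₁' : c * a i₁ < b j := by
          refine lt_of_le_of_ne h₁ fun h => hKmem j hj i₁ hi₁ ?_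
          rw [← h]; exact hcen i₁
        have hi₂' : ¬ c * a i₂ < b j := not_lt.2 h₂
        have hp₁ : S₁ ⊂ S := by
          rw [hS₁, Finset.filter_ssubset]
          exact ⟨i₂, hi₂, hi₂'⟩
        have hp₂ : S₂ ⊂ S := by
          rw [hS₂, Finset.filter_ssubset]
          exact ⟨i₁, hi₁, not_not.2 hi₁'⟩
        have k1 := ih S₁ hp₁
        have k2 := ih S₂ hp₂
        have hdisj : Disjoint (S₁.biUnion t) (S₂.biUnion t) := by
          rw [Finset.disjoint_left]
          intro k hk hk'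
          rw [Finset.mem_biUnion] at hk hk'
          obtain ⟨i, hi, hik⟩ := hk
          obtain ⟨i', hi', hik'⟩ := hk'
          rw [hmem] at hik hik'
          rw [hS₁, Finset.mem_filter] at hi
          rw [hS₂, Finset.mem_filter, not_lt] at hi'
          have e1 : b k < b j := by
            by_contra hge
            push Not at hge
            exact hKmem j hj i hi.1 ((hcen i).between hik hi.2.le hge)
          have e2 : b j < b k := by
            by_contra hge
            push Not at hge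
            exact hKmem j hj i' hi'.1 (hik'.between (hcen i') hge hi'.2)
          exact lt_asymm e1 e2
        have hsum : S₁.card + S₂.card = S.card := Finset.card_filter_add_card_filter_not _
        have hun : (S₁.biUnion t).card + (S₂.biUnion t).card ≤ (S.biUnion t).card := by
          rw [← Finset.card_union_of_disjoint hdisj]
          refine Finset.card_le_card (Finset.union_subset ?_ ?_)
          · exact Finset.biUnion_subset_biUnion_of_subset_left _ hp₁.1
          · exact Finset.biUnion_subset_biUnion_of_subset_left _ hp₂.1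
        omega
      set Km := K.filter fun j => ∀ i ∈ S, b j < c * a i with hKm
      set Kp := K.filter fun j => ∀ i ∈ S, c * a i < b j with hKp
      set X : Finset ℝ := insert (-2) (Km.image b) with hX
      set Y : Finset ℝ := insert 2 (Kp.image b) with hY
      have hXne : X.Nonempty := ⟨-2, Finset.mem_insert_self _ _⟩
      have hYne : Y.Nonempty := ⟨2, Finset.mem_insert_self _ _⟩
      set x := X.max' hXne with hx
      set y := Y.min' hYne with hy
      have hlow : ∀ i ∈ S, ∀ b', Dr c s (a i) b' → x < b' := by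
        intro i hi b' hb'
        have hm := X.max'_mem hXne
        rw [← hx, hX, Finset.mem_insert, Finset.mem_image] at hm
        rcases hm with h | ⟨j, hj, hj'⟩
        · rw [h]
          linarith [(abs_le.1 (hb'.abs_right hcs hs)).1]
        · rw [hKm, Finset.mem_filter] at hj
          by_contra hge
          push Not at hge
          rw [← hj'] at hge
          exact hKmem j hj.1 i hi (hb'.between (hcen i) hge (hj.2 i hi).le)
      have hhigh : ∀ i ∈ S, ∀ b', Dr c s (a i) b' → b' < y := by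
        intro i hi b' hb'
        have hm := Y.min'_mem hYne
        rw [← hy, hY, Finset.mem_insert, Finset.mem_image] at hm
        rcases hm with h | ⟨j, hj, hj'⟩
        · rw [h]
          linarith [(abs_le.1 (hb'.abs_right hcs hs)).2]
        · rw [hKp, Finset.mem_filter] at hj
          by_contra hge
          push Not at hge
          rw [← hj'] at hge
          exact hKmem j hj.1 i hi ((hcen i).between hb' (hj.2 i hi).le hge)
      have hxy : x < y := (hlow i₀ hi₀ _ (hcen i₀)).trans (hhigh i₀ hi₀ _ (hcen i₀))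
      have hKor : ∀ j ∈ K, b j ≤ x ∨ y ≤ b j := by
        intro j hj
        rcases hside j hj with h | h
        · left
          refine Finset.le_max' X _ ?_
          rw [hX, Finset.mem_insert, Finset.mem_image]
          exact Or.inr ⟨j, by rw [hKm, Finset.mem_filter]; exact ⟨hj, h⟩, rfl⟩
        · right
          refine Finset.min'_le Y _ ?_
          rw [hY, Finset.mem_insert, Finset.mem_image]
          exact Or.inr ⟨j, by rw [hKp, Finset.mem_filter]; exact ⟨hj, h⟩, rfl⟩
      have hKcard : K.card + (S.biUnion t).card = Fintype.card ι := by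
        rw [hK, add_comm]
        exact Finset.card_add_card_compl _
      have hScard : S.card ≤ Fintype.card ι := Finset.card_le_univ _
      have hKpos : 0 < K.card := by omega
      obtain ⟨j₀, hj₀⟩ := Finset.card_pos.1 hKpos
      have hne : (∃ b', |b'| ≤ 1 ∧ b' ≤ x) ∨ (∃ b', |b'| ≤ 1 ∧ y ≤ b') := by
        rcases hKor j₀ hj₀ with h | h
        · exact Or.inl ⟨b j₀, hb1 j₀, h⟩
        · exact Or.inr ⟨b j₀, hb1 j₀, h⟩
      have key := count hN hcs hs hVa hVb ha hb ha1 hxy hne S
        (fun k hk b' hb' => ⟨hlow k hk b' hb', hhigh k hk b' hb'⟩)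
      have hKle : K.card ≤ (Finset.univ.filter fun k => b k ≤ x).card +
          (Finset.univ.filter fun k => y ≤ b k).card := by
        refine le_trans (Finset.card_le_card ?_) (Finset.card_union_le _ _)
        intro j hj
        rw [Finset.mem_union, Finset.mem_filter, Finset.mem_filter]
        rcases hKor j hj with h | h
        · exact Or.inl ⟨Finset.mem_univ j, h⟩
        · exact Or.inr ⟨Finset.mem_univ j, h⟩
      omega
  obtain ⟨f, hf, hft⟩ := (Finset.all_card_le_biUnion_card_iff_exists_injective t).1 hall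
  refine ⟨Equiv.ofBijective f (Finite.injective_iff_bijective.1 hf), fun k => ?_⟩
  exact (hmem k (f k)).1 (hft k)

end Pool.Agent.H836_SV
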