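import Mathlib
import Pool.Agent.H836_SV.Match

/-!
# Normal matrices with spectra on two lines
-/

set_option autoImplicit false
open Matrix
open scoped ComplexOrder

namespace Pool.Agent.H836_SV

variable {ι : Type*} [Fintype ι] [DecidableEq ι]

/-- A normal matrix with real spectrum is Hermitian. -/
theorem hermitian_of_real_spectrum {H : Matrix ι ι ℂ} (hH : IsStarNormal H)
    (hs : ∀ z ∈ spectrum ℂ H, ((z.re : ℝ) : ℂ) = z) : H.IsHermitian := by
  open scoped Matrix.Norms.L2Operator in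
  have h : SpectrumRestricts H Complex.reCLM :=
    SpectrumRestricts.of_rightInvOn Complex.ofReal_re (fun z hz => hs z hz)
  exact (isSelfAdjoint_iff_isStarNormal_and_quasispectrumRestricts.2 ⟨hH, h⟩)

/-- A normal matrix with spectrum on a line through `p` with direction `u`. -/
theorem line_form {A : Matrix ι ι ℂ} (hA : IsStarNormal A) {p u : ℂ} (hu : ‖u‖ = 1)
    (hs : ∀ z ∈ spectrum ℂ A, ∃ t : ℝ, z = p + t * u) :
    ∃ H : Matrix ι ι ℂ, H.IsHermitian ∧ A = p • (1 : Matrix ι ι ℂ) + u • H := by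
  have huu : (starRingEnd ℂ) u * u = 1 := by rw [Complex.conj_mul', hu]; norm_num
  have huu' : u * (starRingEnd ℂ) u = 1 := by rw [mul_comm]; exact huu
  set H : Matrix ι ι ℂ := (starRingEnd ℂ) u • (A - p • (1 : Matrix ι ι ℂ)) with hHdef
  have hAH : A = p • (1 : Matrix ι ι ℂ) + u • H := by
    rw [hHdef, smul_smul, huu', one_smul]; abel
  refine ⟨H, ?_, hAH⟩
  refine hermitian_of_real_spectrum ?_ ?_
  · refine ⟨?_⟩
    have h1 : Aᴴ * A = A * Aᴴ := hA.star_comm_self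
    change Hᴴ * H = H * Hᴴ
    rw [hHdef]
    simp only [Matrix.conjTranspose_smul, Matrix.conjTranspose_sub, Matrix.conjTranspose_one,
      Matrix.smul_mul, Matrix.mul_smul, Matrix.sub_mul, Matrix.mul_sub, Matrix.mul_one,
      Matrix.one_mul, h1, smul_sub, smul_smul]
    have e1 : (starRingEnd ℂ) u * star ((starRingEnd ℂ) u) =
      star ((starRingEnd ℂ) u) * (starRingEnd ℂ) u := mul_comm _ _
    simp only [← mul_assoc, e1]
    module
  · intro z hz
    have hmem : p + z * u ∈ spectrum ℂ A := by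
      rw [spectrum.mem_iff] at hz ⊢
      intro hunit
      apply hz
      have e : algebraMap ℂ (Matrix ι ι ℂ) z - H =
          (Units.mk0 ((starRingEnd ℂ) u) (by
            intro h0; rw [h0, zero_mul] at huu; exact zero_ne_one huu)) •
          (algebraMap ℂ (Matrix ι ι ℂ) (p + z * u) - A) := by
        rw [Units.smul_def, Units.val_mk0, hHdef, Algebra.algebraMap_eq_smul_one,
          Algebra.algebraMap_eq_smul_one]
        have : z = (starRingEnd ℂ) u * (z * u) := by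
          rw [mul_left_comm, huu, mul_one]
        conv_lhs => rw [this]
        module
      rw [e]
      exact hunit.smul _
    obtain ⟨t, ht⟩ := hs _ hmem
    have : z = t := by
      have h1 : z * u = t * u := add_left_cancel ht
      have hu0 : u ≠ 0 := by
        intro h0; rw [h0, norm_zero] at hu; exact zero_ne_one hu
      exact mul_right_cancel₀ hu0 h1
    rw [this, Complex.ofReal_re]

/-- The eigenvalues of `p + u H`. -/
theorem line_charpoly {H : Matrix ι ι ℂ} (hH : H.IsHermitian) (p u : ℂ) :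
    (p • (1 : Matrix ι ι ℂ) + u • H).charpoly =
      ∏ i, (Polynomial.X - Polynomial.C (p + (hH.eigenvalues i : ℂ) * u)) := by
  obtain ⟨V, hV1, hV2, hV3⟩ := spectral hH
  have e : p • (1 : Matrix ι ι ℂ) + u • H =
      V * Matrix.diagonal (fun i => p + (hH.eigenvalues i : ℂ) * u) * Vᴴ := by
    have h1 : Matrix.diagonal (fun i => p + (hH.eigenvalues i : ℂ) * u) =
        p • (1 : Matrix ι ι ℂ) + u • (Vᴴ * H * V) := by
      rw [hV3]
      ext i j
      rcases eq_or_ne i j with h | h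
      · subst h; simp [mul_comm]
      · simp [h]
    rw [h1, Matrix.mul_add, Matrix.add_mul, Matrix.mul_smul, Matrix.smul_mul, Matrix.mul_one,
      hV2, Matrix.mul_smul, Matrix.smul_mul]
    congr 2
    calc H = (V * Vᴴ) * H * (V * Vᴴ) := by rw [hV2, Matrix.one_mul, Matrix.mul_one]
      _ = V * (Vᴴ * H * V) * Vᴴ := by simp only [Matrix.mul_assoc]
  rw [e, Matrix.charpoly_mul_comm, ← Matrix.mul_assoc, hV1, Matrix.one_mul,
    Matrix.charpoly_diagonal]

omit [DecidableEq ι] in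
/-- Two listings of the same multiset differ by a permutation. -/
theorem perm_of_prod {α β : ι → ℂ}
    (h : ∏ i, (Polynomial.X - Polynomial.C (α i)) = ∏ i, (Polynomial.X - Polynomial.C (β i))) :
    ∃ τ : Equiv.Perm ι, ∀ k, α k = β (τ k) := by
  have hr : ∀ γ : ι → ℂ, (∏ i, (Polynomial.X - Polynomial.C (γ i))).roots =
      Multiset.map γ Finset.univ.val := by
    intro γ
    have : (∏ i, (Polynomial.X - Polynomial.C (γ i))) =
        ((Multiset.map γ Finset.univ.val).map fun a => Polynomial.X - Polynomial.C a).prod := by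
      rw [Multiset.map_map]; rfl
    rw [this, Polynomial.roots_multiset_prod_X_sub_C]
  have h2 : Multiset.map α Finset.univ.val = Multiset.map β Finset.univ.val := by
    rw [← hr α, ← hr β, h]
  have hcount : ∀ (γ : ι → ℂ) (z : ℂ), (Multiset.map γ Finset.univ.val).count z =
      Fintype.card {i // γ i = z} := by
    intro γ z
    rw [Multiset.count_map, Fintype.card_subtype]
    simp only [eq_comm (a := z)]
    rfl
  have hcard : ∀ z : ℂ, Nonempty ({i // α i = z} ≃ {i // β i = z}) := by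
    intro z
    refine Fintype.card_eq.1 ?_
    rw [← hcount α z, ← hcount β z, h2]
  exact ⟨Equiv.ofFiberEquiv (fun z => (hcard z).some),
    fun k => (Equiv.ofFiberEquiv_map (fun z => (hcard z).some) k).symm⟩

/-- numerical range of a contraction -/
theorem re_le_of_contraction {N : Matrix ι ι ℂ} (hN : (1 - Nᴴ * N).PosSemidef) {z : ℂ}
    (hz : ‖z‖ = 1) (v : ι → ℂ) : (z * qf N v).re ≤ nrm v := by
  have hzz : (starRingEnd ℂ) z * z = 1 := by rw [Complex.conj_mul', hz]; norm_num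
  have h1 : 0 ≤ (qf ((1 - z • N)ᴴ * (1 - z • N)) v).re := by
    have h := qf_conj (1 - z • N) 1 v
    rw [Matrix.mul_one, qf_one] at h
    rw [h, Complex.ofReal_re]
    exact nrm_nonneg _
  have h2 : (1 - z • N)ᴴ * (1 - z • N) = 1 - z • N - (z • N)ᴴ + Nᴴ * N := by
    rw [Matrix.conjTranspose_sub, Matrix.conjTranspose_one, Matrix.sub_mul, Matrix.one_mul,
      Matrix.mul_sub, Matrix.mul_one, Matrix.conjTranspose_smul, Matrix.smul_mul,
      Matrix.mul_smul, smul_smul, Complex.star_def, hzz, one_smul]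
    abel
  have h3 := posSemidef_re hN v
  rw [h2, qf_add, qf_sub, qf_sub, qf_one, qf_conjTranspose, qf_smul, Complex.add_re,
    Complex.sub_re, Complex.sub_re, Complex.ofReal_re, Complex.conj_re] at h1
  rw [qf_sub, qf_one, Complex.sub_re, Complex.ofReal_re] at h3
  linarith

theorem abs_le_of_contraction {N : Matrix ι ι ℂ} (hN : (1 - Nᴴ * N).PosSemidef) {z : ℂ}
    (hz : ‖z‖ = 1) {a : ι → ℝ} {V : Matrix ι ι ℂ} (hV : Vᴴ * V = 1)
    (ha : ∀ x, (z * qf N (V *ᵥ x)).re = ∑ k, a k * ‖x k‖ ^ 2) (k : ι) : |a k| ≤ 1 := by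
  have e1 : ∑ j, a j * ‖(Pi.single k (1 : ℂ) : ι → ℂ) j‖ ^ 2 = a k := by
    rw [Finset.sum_eq_single k]
    · simp
    · intro j _ hj
      rw [Pi.single_eq_of_ne hj]; simp
    · intro h; exact absurd (Finset.mem_univ k) h
  have e2 : nrm (V *ᵥ (Pi.single k (1 : ℂ))) = 1 := by
    rw [nrm_isometry hV, nrm, Finset.sum_eq_single k]
    · simp
    · intro j _ hj
      rw [Pi.single_eq_of_ne hj]; simp
    · intro h; exact absurd (Finset.mem_univ k) h
  have h1 := re_le_of_contraction hN hz (V *ᵥ (Pi.single k (1 : ℂ)))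
  have h2 := re_le_of_contraction hN (z := -z) (by rw [norm_neg]; exact hz)
    (V *ᵥ (Pi.single k (1 : ℂ)))
  rw [ha, e1, e2] at h1
  rw [neg_mul, Complex.neg_re, ha, e1, e2] at h2
  rw [abs_le]
  constructor <;> linarith

/-- The matching for Hermitian `H, S` with `‖H - e^{iθ} S‖ ≤ δ`. -/
theorem hermitian_matching {H S : Matrix ι ι ℂ} (hH : H.IsHermitian) (hS : S.IsHermitian)
    {c s : ℝ} (hcs : c ^ 2 + s ^ 2 = 1) (hs : 0 < s) {δ : ℝ} (hδ : 0 < δ)
    (hT : ∀ v, nrm ((H - (⟨c, -s⟩ : ℂ) • S) *ᵥ v) ≤ δ ^ 2 * nrm v) :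
    ∃ σ : Equiv.Perm ι, ∀ k, hH.eigenvalues k ^ 2 + hS.eigenvalues (σ k) ^ 2 -
      2 * c * hH.eigenvalues k * hS.eigenvalues (σ k) ≤ δ ^ 2 := by
  set r : ℝ := δ⁻¹ with hr
  have hrpos : 0 < r := inv_pos.2 hδ
  have hrδ : r * δ = 1 := inv_mul_cancel₀ hδ.ne'
  set N : Matrix ι ι ℂ := (-Complex.I * (r : ℂ)) • (H - (⟨c, -s⟩ : ℂ) • S) with hNdef
  have hNv : ∀ v, nrm (N *ᵥ v) ≤ nrm v := by
    intro v
    have e : nrm (N *ᵥ v) = r ^ 2 * nrm ((H - (⟨c, -s⟩ : ℂ) • S) *ᵥ v) := by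
      rw [hNdef, Matrix.smul_mulVec, nrm, nrm, Finset.mul_sum]
      refine Finset.sum_congr rfl fun i _ => ?_
      rw [Pi.smul_apply, smul_eq_mul, norm_mul, norm_mul, norm_neg, Complex.norm_I, one_mul,
        Complex.norm_real, Real.norm_eq_abs, mul_pow, sq_abs]
    rw [e]
    calc r ^ 2 * nrm ((H - (⟨c, -s⟩ : ℂ) • S) *ᵥ v) ≤ r ^ 2 * (δ ^ 2 * nrm v) :=
          mul_le_mul_of_nonneg_left (hT v) (sq_nonneg _)
      _ = (r * δ) ^ 2 * nrm v := by ring
      _ = nrm v := by rw [hrδ]; ring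
  have hN : (1 - Nᴴ * N).PosSemidef := by
    refine Matrix.PosSemidef.of_dotProduct_mulVec_nonneg ?_ ?_
    · exact Matrix.isHermitian_one.sub (Matrix.isHermitian_conjTranspose_mul_self N)
    · intro v
      change 0 ≤ qf (1 - Nᴴ * N) v
      have h := qf_conj N 1 v
      rw [Matrix.mul_one, qf_one] at h
      rw [qf_sub, qf_one, h, ← Complex.ofReal_sub]
      exact_mod_cast sub_nonneg.2 (hNv v)
  obtain ⟨Va, hVa, -, hVa'⟩ := spectral hH
  obtain ⟨Vb, hVb, -, hVb'⟩ := spectral hS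
  have hreal : ∀ {M : Matrix ι ι ℂ}, M.IsHermitian → ∀ v, qf M v = ((qf M v).re : ℂ) := by
    intro M hM v
    have h := qf_conjTranspose M v
    rw [hM.eq] at h
    exact (Complex.conj_eq_iff_re.1 h.symm).symm
  have hq : ∀ v, qf N v = (-Complex.I * (r : ℂ)) *
      (((qf H v).re : ℂ) - (⟨c, -s⟩ : ℂ) * ((qf S v).re : ℂ)) := by
    intro v
    rw [hNdef, qf_smul, qf_sub, qf_smul, ← hreal hH v, ← hreal hS v]
  have hq1 : ∀ v, (qf N v).re = r * s * (qf S v).re := by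
    intro v
    rw [hq]
    simp [Complex.mul_re, Complex.mul_im]
    ring
  have hq2 : ∀ v, ((starRingEnd ℂ) (⟨c, -s⟩ : ℂ) * qf N v).re = r * s * (qf H v).re := by
    intro v
    rw [hq]
    simp [Complex.mul_re, Complex.mul_im]
    ring
  have hdiag : ∀ (M : Matrix ι ι ℂ) (V : Matrix ι ι ℂ) (e : ι → ℝ),
      Vᴴ * M * V = Matrix.diagonal (fun i => ((e i : ℝ) : ℂ)) →
      ∀ x, (qf M (V *ᵥ x)).re = ∑ k, e k * ‖x k‖ ^ 2 := by
    intro M V e h x
    rw [← qf_conj, h, qf_diagonal, Complex.re_sum]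
    refine Finset.sum_congr rfl fun k _ => ?_
    rw [← Complex.ofReal_mul, Complex.ofReal_re]
  have ha : ∀ x, ((starRingEnd ℂ) (⟨c, -s⟩ : ℂ) * qf N (Va *ᵥ x)).re =
      ∑ k, (r * s * hH.eigenvalues k) * ‖x k‖ ^ 2 := by
    intro x
    rw [hq2, hdiag H Va _ hVa', Finset.mul_sum]
    exact Finset.sum_congr rfl fun k _ => by ring
  have hb : ∀ x, (qf N (Vb *ᵥ x)).re = ∑ k, (r * s * hS.eigenvalues k) * ‖x k‖ ^ 2 := by
    intro x
    rw [hq1, hdiag S Vb _ hVb', Finset.mul_sum]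
    exact Finset.sum_congr rfl fun k _ => by ring
  have hν : ‖(starRingEnd ℂ) (⟨c, -s⟩ : ℂ)‖ = 1 := by
    rw [RCLike.norm_conj, Complex.norm_def, Complex.normSq_mk, Real.sqrt_eq_one]
    linarith
  obtain ⟨σ, hσ⟩ := matching hN hcs hs hVa hVb ha hb (abs_le_of_contraction hN hν hVa ha)
    (abs_le_of_contraction (z := 1) hN norm_one hVb (fun x => by rw [one_mul]; exact hb x))
  refine ⟨σ, fun k => ?_⟩
  have h := hσ k
  unfold Dr at h
  have h2 : (r * s) ^ 2 * (hH.eigenvalues k ^ 2 + hS.eigenvalues (σ k) ^ 2 -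
      2 * c * hH.eigenvalues k * hS.eigenvalues (σ k)) ≤ (r * s) ^ 2 * δ ^ 2 := by
    have e : (r * s) ^ 2 * δ ^ 2 = (r * δ) ^ 2 * s ^ 2 := by ring
    rw [e, hrδ]
    linarith
  exact le_of_mul_le_mul_left h2 (by positivity)

open scoped Matrix.Norms.L2Operator in
theorem nrm_mulVec_le (M : Matrix ι ι ℂ) (v : ι → ℂ) : nrm (M *ᵥ v) ≤ ‖M‖ ^ 2 * nrm v := by
  have h := Matrix.l2_opNorm_mulVec M ((EuclideanSpace.equiv ι ℂ).symm v)
  have e : ∀ w : ι → ℂ, ‖(EuclideanSpace.equiv ι ℂ).symm w‖ ^ 2 = nrm w := by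
    intro w
    rw [EuclideanSpace.norm_sq_eq, nrm]
    rfl
  have h2 := pow_le_pow_left₀ (norm_nonneg _) h 2
  rw [mul_pow, e, e] at h2
  exact h2

open scoped Matrix.Norms.L2Operator in
/-- Two lines through `p`, in unit directions. -/
theorem two_lines_pos {A B : Matrix ι ι ℂ} (hA : IsStarNormal A) (hB : IsStarNormal B)
    {p u u' : ℂ} (hu : ‖u‖ = 1) (hu' : ‖u'‖ = 1) (hw : 0 < ((starRingEnd ℂ) u * u').im)
    (hsA : ∀ z ∈ spectrum ℂ A, ∃ t : ℝ, z = p + t * u)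
    (hsB : ∀ z ∈ spectrum ℂ B, ∃ t : ℝ, z = p + t * u') {α β : ι → ℂ}
    (hα : A.charpoly = ∏ i, (Polynomial.X - Polynomial.C (α i)))
    (hβ : B.charpoly = ∏ i, (Polynomial.X - Polynomial.C (β i))) :
    ∃ σ : Equiv.Perm ι, ∀ k, ‖α k - β (σ k)‖ ≤ ‖A - B‖ := by
  rcases eq_or_lt_of_le (norm_nonneg (A - B)) with h0 | hδ
  · have hAB : A = B := sub_eq_zero.1 (norm_eq_zero.1 h0.symm)
    rw [hAB, hβ] at hα
    obtain ⟨τ, hτ⟩ := perm_of_prod hα.symm
    refine ⟨τ, fun k => ?_⟩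
    rw [hτ k, sub_self, norm_zero]
    exact norm_nonneg _
  obtain ⟨H, hH, hAH⟩ := line_form hA hu hsA
  obtain ⟨S, hS, hBS⟩ := line_form hB hu' hsB
  set w : ℂ := (starRingEnd ℂ) u * u' with hwdef
  have huu : u * (starRingEnd ℂ) u = 1 := by rw [Complex.mul_conj', hu]; norm_num
  have huw : u * w = u' := by rw [hwdef, ← mul_assoc, huu, one_mul]
  have hwn : ‖w‖ = 1 := by rw [hwdef, norm_mul, RCLike.norm_conj, hu, hu', one_mul]
  have hcs : w.re ^ 2 + w.im ^ 2 = 1 := by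
    have := Complex.sq_norm w
    rw [hwn, Complex.normSq_apply] at this
    linarith
  have hwst : (⟨w.re, -w.im⟩ : ℂ) = (starRingEnd ℂ) w := rfl
  have hdiff : A - B = u • (H - w • S) := by
    rw [smul_sub, smul_smul, huw, hAH, hBS]; abel
  have hT : ∀ v, nrm ((H - (⟨w.re, -w.im⟩ : ℂ) • S) *ᵥ v) ≤ ‖A - B‖ ^ 2 * nrm v := by
    intro v
    have e : H - (⟨w.re, -w.im⟩ : ℂ) • S = u • (A - B)ᴴ := by
      rw [hwst, hdiff, Matrix.conjTranspose_smul, Matrix.conjTranspose_sub,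
        Matrix.conjTranspose_smul, hH.eq, hS.eq, smul_smul, Complex.star_def, huu, one_smul]
    have h := nrm_mulVec_le (u • (A - B)ᴴ) v
    rw [norm_smul, hu, one_mul, Matrix.l2_opNorm_conjTranspose] at h
    rw [e]
    exact h
  obtain ⟨σ, hσ⟩ := hermitian_matching hH hS hcs hw hδ hT
  obtain ⟨τ₁, hτ₁⟩ := perm_of_prod (hα.symm.trans ((congrArg Matrix.charpoly hAH).trans
    (line_charpoly hH p u)))
  obtain ⟨τ₂, hτ₂⟩ := perm_of_prod (hβ.symm.trans ((congrArg Matrix.charpoly hBS).trans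
    (line_charpoly hS p u')))
  refine ⟨(τ₁.trans σ).trans τ₂.symm, fun k => ?_⟩
  have e1 : α k - β (((τ₁.trans σ).trans τ₂.symm) k) =
      u * ((hH.eigenvalues (τ₁ k) : ℂ) - w * (hS.eigenvalues (σ (τ₁ k)) : ℂ)) := by
    rw [hτ₁ k, hτ₂, ← huw]
    simp only [Equiv.trans_apply, Equiv.apply_symm_apply]
    ring
  rw [e1, norm_mul, hu, one_mul]
  refine abs_le_of_sq_le_sq' ?_ (norm_nonneg _) |>.2
  rw [Complex.sq_norm, Complex.normSq_apply]
  have h := hσ (τ₁ k)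
  simp only [Complex.sub_re, Complex.sub_im, Complex.mul_re, Complex.mul_im, Complex.ofReal_re,
    Complex.ofReal_im, mul_zero, sub_zero, zero_sub]
  generalize hH.eigenvalues (τ₁ k) = x at *
  generalize hS.eigenvalues (σ (τ₁ k)) = y at *
  have : (x - (w.re * y)) * (x - (w.re * y)) + (-(0 + w.im * y)) * (-(0 + w.im * y)) =
      x ^ 2 + (w.re ^ 2 + w.im ^ 2) * y ^ 2 - 2 * w.re * x * y := by ring
  rw [hcs, one_mul] at this
  linarith

open scoped Matrix.Norms.L2Operator in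
/-- Normal matrices with spectra on any two non-parallel lines. -/
theorem two_lines {A B : Matrix ι ι ℂ} (hA : IsStarNormal A) (hB : IsStarNormal B)
    {p u p' u' : ℂ} (hw : ((starRingEnd ℂ) u * u').im ≠ 0)
    (hsA : ∀ z ∈ spectrum ℂ A, ∃ t : ℝ, z = p + t * u)
    (hsB : ∀ z ∈ spectrum ℂ B, ∃ t : ℝ, z = p' + t * u') {α β : ι → ℂ}
    (hα : A.charpoly = ∏ i, (Polynomial.X - Polynomial.C (α i)))
    (hβ : B.charpoly = ∏ i, (Polynomial.X - Polynomial.C (β i))) :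
    ∃ σ : Equiv.Perm ι, ∀ k, ‖α k - β (σ k)‖ ≤ ‖A - B‖ := by
  have hu0 : u ≠ 0 := by
    rintro rfl; simp at hw
  have hu0' : u' ≠ 0 := by
    rintro rfl; simp at hw
  -- the intersection point
  obtain ⟨q, a, b, hqa, hqb⟩ : ∃ (q : ℂ) (a b : ℝ), q = p + a * u ∧ q = p' + b * u' := by
    set D : ℝ := ((starRingEnd ℂ) u * u').im with hD
    refine ⟨p + (((starRingEnd ℂ) (p' - p) * u').im / D : ℝ) * u,
      (((starRingEnd ℂ) (p' - p) * u').im / D), -((starRingEnd ℂ) u * (p' - p)).im / D, rfl, ?_⟩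
    have hD' : D = u.re * u'.im - u.im * u'.re := by
      rw [hD]; simp [Complex.mul_im]; ring
    apply Complex.ext
    · simp only [Complex.add_re, Complex.mul_re, Complex.ofReal_re, Complex.ofReal_im, zero_mul,
        sub_zero, Complex.mul_im, Complex.conj_re, Complex.conj_im, Complex.sub_re,
        Complex.sub_im]
      field_simp
      rw [hD']
      ring
    · simp only [Complex.add_im, Complex.ofReal_re, Complex.ofReal_im, zero_mul,
        add_zero, Complex.mul_im, Complex.conj_re, Complex.conj_im, Complex.sub_re,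
        Complex.sub_im]
      field_simp
      rw [hD']
      ring
  have key : ∀ (v v' : ℂ), ‖v‖ = 1 → ‖v'‖ = 1 → 0 < ((starRingEnd ℂ) v * v').im →
      (∃ r : ℝ, u = r * v) → (∃ r : ℝ, u' = r * v') →
      ∃ σ : Equiv.Perm ι, ∀ k, ‖α k - β (σ k)‖ ≤ ‖A - B‖ := by
    rintro v v' hv hv' hpos ⟨r, hr⟩ ⟨r', hr'⟩
    refine two_lines_pos hA hB (p := q) hv hv' hpos ?_ ?_ hα hβ
    · intro z hz
      obtain ⟨t, ht⟩ := hsA z hz
      refine ⟨(t - a) * r, ?_⟩
      rw [ht, hqa, hr]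
      push_cast
      ring
    · intro z hz
      obtain ⟨t, ht⟩ := hsB z hz
      refine ⟨(t - b) * r', ?_⟩
      rw [ht, hqb, hr']
      push_cast
      ring
  have hun : ∀ z : ℂ, z ≠ 0 → ‖((‖z‖⁻¹ : ℝ) : ℂ) * z‖ = 1 := by
    intro z hz
    rw [norm_mul, Complex.norm_real, norm_inv, norm_norm, inv_mul_cancel₀ (norm_ne_zero_iff.2 hz)]
  have hun' : ∀ z : ℂ, z ≠ 0 → z = ((‖z‖ : ℝ) : ℂ) * (((‖z‖⁻¹ : ℝ) : ℂ) * z) := by
    intro z hz
    rw [← mul_assoc, ← Complex.ofReal_mul, mul_inv_cancel₀ (norm_ne_zero_iff.2 hz),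
      Complex.ofReal_one, one_mul]
  have him : ((starRingEnd ℂ) (((‖u‖⁻¹ : ℝ) : ℂ) * u) * (((‖u'‖⁻¹ : ℝ) : ℂ) * u')).im =
      ‖u‖⁻¹ * ‖u'‖⁻¹ * ((starRingEnd ℂ) u * u').im := by
    have : (starRingEnd ℂ) (((‖u‖⁻¹ : ℝ) : ℂ) * u) * (((‖u'‖⁻¹ : ℝ) : ℂ) * u') =
        ((‖u‖⁻¹ * ‖u'‖⁻¹ : ℝ) : ℂ) * ((starRingEnd ℂ) u * u') := by
      rw [map_mul, Complex.conj_ofReal]
      push_cast
      ring
    rw [this, Complex.im_ofReal_mul]
  have hpos : 0 < ‖u‖⁻¹ * ‖u'‖⁻¹ := by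
    have := norm_pos_iff.2 hu0
    have := norm_pos_iff.2 hu0'
    positivity
  rcases lt_or_gt_of_ne hw with h | h
  · refine key (((‖u‖⁻¹ : ℝ) : ℂ) * u) (-(((‖u'‖⁻¹ : ℝ) : ℂ) * u')) (hun u hu0)
      (by rw [norm_neg]; exact hun u' hu0') ?_ ⟨‖u‖, hun' u hu0⟩ ⟨-‖u'‖, ?_⟩
    · rw [mul_neg, Complex.neg_im, him]
      nlinarith [mul_pos hpos (neg_pos.2 h)]
    · conv_lhs => rw [hun' u' hu0']
      push_cast
      ring
  · refine key (((‖u‖⁻¹ : ℝ) : ℂ) * u) (((‖u'‖⁻¹ : ℝ) : ℂ) * u') (hun u hu0)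
      (hun u' hu0') ?_ ⟨‖u‖, hun' u hu0⟩ ⟨‖u'‖, hun' u' hu0'⟩
    rw [him]
    exact mul_pos hpos h

end Pool.Agent.H836_SV
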